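import Pool.Agent.Helper22.CD.M3
import Pool.Agent.Helper3.CD.Meas

/-!
# CD-MMain: measurability of the composite relations and events
-/

set_option autoImplicit false

namespace Pool.Agent.Helper22.CD

open MeasureTheory ProbabilityTheory Metric Set
open scoped ENNReal NNReal
open Pool.Agent.Helper3.CD Pool.Agent.Helper16.CD

variable {E : Type} [MeasurableSpace E] {ν : Measure E} {sh : E → Set Plane}

theorem MeasR.or {ι E : Type*} [MeasurableSpace E] {R R' : List (ι × E) → Prop} (h : MeasR R)
    (h' : MeasR R') : MeasR (fun l => R l ∨ R' l) := fun n c => (h n c).union (h' n c)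

theorem MeasR.false {ι E : Type*} [MeasurableSpace E] :
    MeasR (fun _ : List (ι × E) => False) := fun _ _ => by simp

theorem measR_K1r (h : IsShape ν sh) (V V' : Idx) : MeasR (K1r sh V V') :=
  measR_OneR h _ _ _ _

theorem measR_K2r (h : IsShape ν sh) (V' : Idx) : MeasR (K2r sh V') :=
  measR_ChR h _ _ _ _

theorem measR_bad (h : IsShape ν sh) {τ : ℝ} (hτ : 0 < τ) (V V' : Idx) :
    MeasR (bad sh τ V V') := by
  have h1 := MeasR.or (measR_K1r h V V') (MeasR.or (measR_K2r h V') (measR_K3r h hτ V.1 V V'))
  exact h1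

theorem measR_badP (h : IsShape ν sh) (n : ℕ) {τ : ℝ} (hτ : 0 < τ) :
    ∀ (b : ℕ) (V : Idx), MeasR (badP sh n τ b V)
  | 0, _ => MeasR.false
  | b + 1, V => MeasR.or (measR_badP h n hτ b (par n V)) (measR_bad h hτ (par n V) V)

theorem measR_Rootr (h : IsShape ν sh) (n : ℕ) : MeasR (Rootr sh n) :=
  MeasR.or (measR_OneR h _ _ _ _) (measR_ChR h _ _ _ _)

theorem measR_Gr (h : IsShape ν sh) (n : ℕ) (τ : ℝ) (T : Idx) : MeasR (Gr sh n τ T) :=
  MeasR.or (measR_OneR h _ _ _ _) (measR_ChR h _ _ _ _)

theorem measurableSet_kept (h : IsShape ν sh) (n : ℕ) {τ : ℝ} (hτ : 0 < τ) (b : ℕ) (V : Idx) :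
    MeasurableSet (kept sh n τ b V) :=
  measurableSet_Ev _ _ (MeasR.or (measR_Rootr h n) (measR_badP h n hτ b V))

/-- the event that a square is good is measurable -/
theorem measurableSet_Gd (h : IsShape ν sh) (i : Idx) :
    MeasurableSet {w : Conf E | i ∈ Gd sh w} := by
  classical
  have h1 := measurableSet_exists (E := E) (fun j : Idx => if j = i then Lset sh else ∅)
    (fun j => by
      split_ifs
      · exact measurableSet_Lset h
      · exact MeasurableSet.empty)
  convert h1 using 1
  ext w
  constructor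
  · rintro ⟨e, he, heL⟩
    exact ⟨(i, e), he, by simpa using heL⟩
  · rintro ⟨p, hp, hpT⟩
    by_cases hpi : p.1 = i
    · rw [if_pos hpi] at hpT
      exact ⟨p.2, by rw [← hpi]; exact hp, hpT⟩
    · rw [if_neg hpi] at hpT
      exact absurd hpT (Set.notMem_empty _)

/-- the weighted indicator is measurable -/
theorem measurable_Psi (h : IsShape ν sh) (n : ℕ) (s : ℝ) (V' : Idx) :
    Measurable (Psi sh n s V') := by
  classical
  unfold Psi
  refine Measurable.mul ?_ ?_
  · refine Measurable.ite ?_ measurable_const measurable_const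
    exact measurableSet_Ev _ _ (measR_Singr h _ _)
  · refine Finset.measurable_prod _ fun t _ => ?_
    refine Measurable.ennreal_ofReal ?_
    have h1 : (fun w : Conf E => wgt (Gd sh w) (up^[t] V') ^ s) =
        fun w : Conf E => if up (up^[t] V') ∈ Gd sh w then wt (dig (up^[t] V')) ^ s else 1 := by
      ext w
      unfold wgt
      split_ifs <;> simp
    rw [h1]
    exact Measurable.ite (measurableSet_Gd h _) measurable_const measurable_const

end Pool.Agent.Helper22.CD
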