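import Pool.Agent.Helper22.CD.Inv1
import Pool.Agent.Helper22.CD.MMain
import Pool.Agent.Helper3.CD.Shift

/-!
# CD-Inv2: scaling of relations and events

Each relation is a condition on the loops, their levels and sets; with `p' = (sft V p.1, p.2)`:
`lp sh p' = pos V '' lp sh p`, `un sh (l.map ..) = pos V '' un sh l`, `Walk` is preserved
(`List.isChain_map`, images under an injective map), levels are shifted by `V.1`.
`Ev_sft`: a list of present points satisfying `R'` has all cells of level `≥ V.1`, so it is the image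
of a list (`exists_sft`), whose elements are present for `w ∘ sft V`.
-/

set_option autoImplicit false

namespace Pool.Agent.Helper22.CD

open MeasureTheory ProbabilityTheory Metric Set
open scoped ENNReal NNReal
open Pool.Agent.Helper3.CD Pool.Agent.Helper16.CD

variable {E : Type}

/-- the shifted point -/
def sp (V : Idx) (p : Idx × E) : Idx × E := (sft V p.1, p.2)

theorem lp_sp (sh : E → Set Plane) (V : Idx) (p : Idx × E) :
    lp sh (sp V p) = Pool.Agent.Helper16.CD.pos V '' lp sh p := by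
  unfold Pool.Agent.Helper16.CD.lp sp
  ext z
  constructor
  · rintro ⟨x, hx, rfl⟩
    exact ⟨_, ⟨x, hx, rfl⟩, (pos_sft V p.1 x).symm⟩
  · rintro ⟨_, ⟨x, hx, rfl⟩, rfl⟩
    exact ⟨x, hx, pos_sft V p.1 x⟩

theorem un_sp (sh : E → Set Plane) (V : Idx) (l : List (Idx × E)) :
    un sh (l.map (sp V)) = Pool.Agent.Helper16.CD.pos V '' un sh l := by
  unfold un
  ext z
  simp only [mem_iUnion, List.mem_map, exists_prop, mem_image]
  constructor
  · rintro ⟨_, ⟨p, hp, rfl⟩, hz⟩
    rw [lp_sp] at hz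
    obtain ⟨x, hx, rfl⟩ := hz
    exact ⟨x, ⟨p, hp, hx⟩, rfl⟩
  · rintro ⟨x, ⟨p, hp, hx⟩, rfl⟩
    exact ⟨sp V p, ⟨p, hp, rfl⟩, by rw [lp_sp]; exact ⟨x, hx, rfl⟩⟩

theorem walk_sp (sh : E → Set Plane) (V : Idx) (l : List (Idx × E)) :
    Walk sh (l.map (sp V)) ↔ Walk sh l := by
  unfold Walk
  rw [List.isChain_map]
  have h : ∀ p q : Idx × E, (lp sh (sp V p) ∩ lp sh (sp V q)).Nonempty ↔
      (lp sh p ∩ lp sh q).Nonempty := by
    intro p q
    rw [lp_sp, lp_sp, ← image_inter (pos_inj V), image_nonempty]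
  simp only [h]

private theorem Inv2_lev (V : Idx) (p : Idx × E) : (sp V p).1.1 = V.1 + p.1.1 := rfl

private theorem Inv2_levs (V : Idx) (k : ℕ) (l : List (Idx × E)) :
    (∀ p ∈ l.map (sp V), V.1 + k ≤ p.1.1) ↔ ∀ p ∈ l, k ≤ p.1.1 := by
  rw [List.forall_mem_map]
  refine forall_congr' fun p => forall_congr' fun _ => ?_
  rw [Inv2_lev]
  omega

private theorem Inv2_disj (V : Idx) (A B : Set Plane) :
    Disjoint (Pool.Agent.Helper16.CD.pos V '' A) (Pool.Agent.Helper16.CD.pos V '' B) ↔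
      Disjoint A B := disjoint_image_iff (pos_inj V)

private theorem Inv2_sub (V : Idx) (A B : Set Plane) :
    Pool.Agent.Helper16.CD.pos V '' A ⊆ Pool.Agent.Helper16.CD.pos V '' B ↔ A ⊆ B :=
  image_subset_image_iff (pos_inj V)

theorem OneR_sp (sh : E → Set Plane) (V : Idx) (a b : ℕ) (x : Plane) (R : ℝ)
    (l : List (Idx × E)) :
    OneR sh (V.1 + a) (V.1 + b) (Pool.Agent.Helper16.CD.pos V x) (side V * R) (l.map (sp V)) ↔
      OneR sh a b x R l := by
  have key : ∀ p : Idx × E,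
      (V.1 + a ≤ (sp V p).1.1 ∧ (sp V p).1.1 < V.1 + b ∧
        (lp sh (sp V p) ∩ closedBall (Pool.Agent.Helper16.CD.pos V x) (side V * R)).Nonempty) ↔
      (a ≤ p.1.1 ∧ p.1.1 < b ∧ (lp sh p ∩ closedBall x R).Nonempty) := by
    intro p
    rw [Inv2_lev, lp_sp, ← image_closedBall, ← image_inter (pos_inj V), image_nonempty]
    refine and_congr (by omega) (and_congr (by omega) Iff.rfl)
  unfold OneR
  constructor
  · rintro ⟨p, hp, h⟩
    obtain ⟨q, rfl, rfl⟩ := List.map_eq_singleton_iff.1 hp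
    exact ⟨q, rfl, (key q).1 h⟩
  · rintro ⟨q, rfl, h⟩
    exact ⟨sp V q, rfl, (key q).2 h⟩

theorem ChR_sp (sh : E → Set Plane) (V : Idx) (k : ℕ) (x : Plane) (R d : ℝ)
    (l : List (Idx × E)) :
    ChR sh (V.1 + k) (Pool.Agent.Helper16.CD.pos V x) (side V * R) (side V * d) (l.map (sp V)) ↔
      ChR sh k x R d l := by
  unfold ChR
  rw [walk_sp, Inv2_levs, un_sp, diam_pos, ← image_closedBall, ← image_inter (pos_inj V),
    image_nonempty, mul_le_mul_iff_right₀ (side_pos V)]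
  simp only [ne_eq, List.map_eq_nil_iff]

theorem Singr_sp (sh : E → Set Plane) (V U U' : Idx) (l : List (Idx × E)) :
    Singr sh (sft V U) (sft V U') (l.map (sp V)) ↔ Singr sh U U' l := by
  have key : ∀ p : Idx × E,
      ((sft V U).1 ≤ (sp V p).1.1 ∧ (sp V p).1.1 < (sft V U').1 ∧
        lp sh (sp V p) ⊆ interior (big 3 (sft V U)) ∧
        Disjoint (lp sh (sp V p)) (big 7 (sft V U')) ∧
        ctr (sft V U') ∈ fillIn (lp sh (sp V p))) ↔
      (U.1 ≤ p.1.1 ∧ p.1.1 < U'.1 ∧ lp sh p ⊆ interior (big 3 U) ∧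
        Disjoint (lp sh p) (big 7 U') ∧ ctr U' ∈ fillIn (lp sh p)) := by
    intro p
    rw [Inv2_lev, lp_sp, big_sft, big_sft, interior_pos, Inv2_sub, Inv2_disj, ctr_sft, fillIn_pos,
      (pos_inj V).mem_set_image]
    have h1 : (sft V U).1 = V.1 + U.1 := rfl
    have h2 : (sft V U').1 = V.1 + U'.1 := rfl
    rw [h1, h2]
    refine and_congr (by omega) (and_congr (by omega) Iff.rfl)
  unfold Singr
  constructor
  · rintro ⟨p, hp, h⟩
    obtain ⟨q, rfl, rfl⟩ := List.map_eq_singleton_iff.1 hp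
    exact ⟨q, rfl, (key q).1 h⟩
  · rintro ⟨q, rfl, h⟩
    exact ⟨sp V q, rfl, (key q).2 h⟩

theorem K3r_sp (sh : E → Set Plane) {τ : ℝ} (hτ : 0 ≤ τ) (k : ℕ) (V U U' : Idx)
    (l : List (Idx × E)) :
    K3r sh τ (V.1 + k) (sft V U) (sft V U') (l.map (sp V)) ↔ K3r sh τ k U U' l := by
  unfold K3r
  have h1 : τ * side (sft V U') = side V * (τ * side U') := by
    rw [side_sft]; ring
  rw [walk_sp, Inv2_levs, un_sp, big_sft, big_sft, Inv2_sub, Inv2_disj, ctr_sft, h1,
    cthickening_pos V (mul_nonneg hτ (side_pos U').le), fillIn_pos, (pos_inj V).mem_set_image]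
  simp only [ne_eq, List.map_eq_nil_iff]

theorem bad_sp (sh : E → Set Plane) {τ : ℝ} (hτ : 0 ≤ τ) (V U U' : Idx) (l : List (Idx × E)) :
    bad sh τ (sft V U) (sft V U') (l.map (sp V)) ↔ bad sh τ U U' l := by
  have h1 : 9 * side (sft V U') / 2 = side V * (9 * side U' / 2) := by
    rw [side_sft]; ring
  have h2 : side (sft V U') / 4 = side V * (side U' / 4) := by
    rw [side_sft]; ring
  have k1 : K1r sh (sft V U) (sft V U') (l.map (sp V)) ↔ K1r sh U U' l := by
    unfold K1r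
    rw [h1, ctr_sft]
    exact OneR_sp sh V U.1 U'.1 _ _ l
  have k2 : K2r sh (sft V U') (l.map (sp V)) ↔ K2r sh U' l := by
    unfold K2r
    rw [h1, h2, ctr_sft]
    exact ChR_sp sh V U'.1 _ _ _ l
  unfold bad
  rw [k1, k2]
  exact or_congr Iff.rfl (or_congr Iff.rfl (K3r_sp sh hτ U.1 V U U' l))

private theorem Inv2_list (V : Idx) (l : List (Idx × E)) (h : ∀ p ∈ l, V.1 ≤ p.1.1) :
    ∃ l' : List (Idx × E), l'.map (sp V) = l := by
  induction l with
  | nil => exact ⟨[], rfl⟩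
  | cons a l ih =>
    obtain ⟨l', e⟩ := ih (fun p hp => h p (List.mem_cons_of_mem _ hp))
    obtain ⟨j, hj⟩ := exists_sft (h a (List.mem_cons_self ..))
    refine ⟨(j, a.2) :: l', ?_⟩
    rw [List.map_cons, e]
    congr 1
    exact Prod.ext hj rfl

theorem Ev_sft {V : Idx} {R R' : List (Idx × E) → Prop}
    (h1 : ∀ l, R' l → ∀ p ∈ l, V.1 ≤ p.1.1) (h2 : ∀ l, R' (l.map (sp V)) ↔ R l) (w : Conf E) :
    w ∈ Ev univ R' ↔ (fun i => w (sft V i)) ∈ Ev univ R := by
  constructor
  · intro hw l hl hR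
    refine hw (l.map (sp V)) ?_ ((h2 l).2 hR)
    intro p hp
    obtain ⟨q, hq, rfl⟩ := List.mem_map.1 hp
    exact ⟨(hl q hq).1, mem_univ _⟩
  · intro hw l hl hR
    obtain ⟨l', rfl⟩ := Inv2_list V l (h1 l hR)
    refine hw l' ?_ ((h2 l').1 hR)
    intro p hp
    exact ⟨(hl _ (List.mem_map_of_mem hp)).1, mem_univ _⟩

variable [MeasurableSpace E] {ν : Measure E} {sh : E → Set Plane}

theorem prob_sft (r : ℝ≥0) (ν : Measure E) [IsProbabilityMeasure ν] {V : Idx}
    {R R' : List (Idx × E) → Prop} (h1 : ∀ l, R' l → ∀ p ∈ l, V.1 ≤ p.1.1)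
    (h2 : ∀ l, R' (l.map (sp V)) ↔ R l) (hR : MeasR R) :
    law r ν (Ev univ R') = law r ν (Ev univ R) := by
  have h3 : Ev univ R' = {w : Conf E | (fun i => w (sft V i)) ∈ Ev univ R} := by
    ext w
    exact Ev_sft h1 h2 w
  rw [h3]
  exact soup_comp (fun _ : Idx => r) (fun _ => ν) (sft V) (sft_inj V) (fun _ => rfl)
    (fun _ => rfl) (Ev univ R) (measurableSet_Ev _ _ hR)

private theorem Inv2_child_fst (n : ℕ) (V : Idx) (j : J n) : (child n V j).1 = V.1 + 3 * n := rfl

theorem prob_bad (h : IsShape ν sh) (r : ℝ≥0) {τ : ℝ} (hτ : 0 < τ) (n : ℕ) (V : Idx) (j : J n) :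
    law r ν (Ev univ (bad sh τ V (child n V j))) =
      law r ν (Ev univ (bad sh τ V0 (child n V0 j))) := by
  have := h.prob
  refine prob_sft r ν (V := V) ?_ ?_ (measR_bad h hτ _ _)
  · rintro l (⟨q, rfl, hq, -⟩ | ⟨-, -, hq, -⟩ | ⟨-, -, hq, -⟩) p hp
    · rw [List.mem_singleton.1 hp]
      exact hq
    · have := hq p hp
      rw [Inv2_child_fst] at this
      omega
    · exact hq p hp
  · intro l
    have h1 := bad_sp sh hτ.le V V0 (child n V0 j) l
    rwa [sft_V0, ← child_eq] at h1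

private theorem Inv2_up (n : ℕ) (V : Idx) (j : J n) (t : ℕ) (ht : t ≤ n) :
    up^[t] (child n V j) = sft V (up^[t] (child n V0 j)) := by
  induction t with
  | zero => exact child_eq n V j
  | succ t ih =>
    rw [Function.iterate_succ_apply', Function.iterate_succ_apply', ih (by omega)]
    apply up_sft
    rw [up_iter_fst, Inv2_child_fst]
    omega

theorem Psi_sft (sh : E → Set Plane) (n : ℕ) (s : ℝ) (V : Idx) (j : J n) (w : Conf E) :
    Psi sh n s (child n V j) w = Psi sh n s (child n V0 j) (fun i => w (sft V i)) := by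
  classical
  unfold Psi
  rw [par_child, par_child]
  have h1 : w ∈ Ev univ (Singr sh V (child n V j)) ↔
      (fun i => w (sft V i)) ∈ Ev univ (Singr sh V0 (child n V0 j)) := by
    apply Ev_sft
    · rintro l ⟨q, rfl, hq, -⟩ p hp
      rw [List.mem_singleton.1 hp]
      exact hq
    · intro l
      have h2 := Singr_sp sh V V0 (child n V0 j) l
      rwa [sft_V0, ← child_eq] at h2
  congr 1
  · simp only [h1]
  · refine Finset.prod_congr rfl fun t ht => ?_
    have ht' := Finset.mem_range.1 ht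
    congr 2
    have hlev : 3 ≤ (up^[t] (child n V0 j)).1 := by
      rw [up_iter_fst, Inv2_child_fst]
      omega
    rw [Inv2_up n V j t ht'.le]
    unfold wgt
    rw [up_sft hlev, dig_sft hlev]
    have h3 : sft V (up (up^[t] (child n V0 j))) ∈ Gd sh w ↔
        up (up^[t] (child n V0 j)) ∈ Gd sh (fun i => w (sft V i)) := Iff.rfl
    simp only [h3]

theorem lint_Psi (h : IsShape ν sh) (r : ℝ≥0) (n : ℕ) (s : ℝ) (V : Idx) (j : J n) :
    ∫⁻ w, Psi sh n s (child n V j) w ∂(law r ν) =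
      ∫⁻ w, Psi sh n s (child n V0 j) w ∂(law r ν) := by
  have := h.prob
  have h1 := lintegral_comp (fun _ : Idx => r) (fun _ => ν) (sft V) (sft_inj V)
    (fun _ => rfl) (fun _ => rfl) (Psi sh n s (child n V0 j)) (measurable_Psi h n s _)
  simp only [Psi_sft sh n s V j]
  exact h1

end Pool.Agent.Helper22.CD
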