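import Pool.Agent.Helper22.CD.D2

/-!
# CD-D6: the points on the circle, and small squares around inner points

`dimH_circle`: `{z | z.1 ^ 2 + z.2 ^ 2 = 1}` is the range of `t ↦ (cos t, sin t)`, `ContDiff`,
so its dimension is at most `1` (`ContDiff.dimH_range_le`, `Module.finrank ℝ ℝ = 1`).
`circle_part`: if `x ∉ oD` then no `qq m x` is in `GD` because `x ∈ cell (qq m x)` (`mem_cell_qq`), so
`f` is 1-Lipschitz on `{x | x ∉ oD}` (`LipschitzOnWith.dimH_image_le`); this set, as a subset of the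
subtype, has dimension at most the dimension of its image in the plane (isometry `Subtype.val`:
`Isometry.dimH_image`), which is in the circle because `Xs ⊆ cD`.
`inner_part`: `oD` is open, so `ball x ε ⊆ oD`; `big 3 (qq m x) ⊆ closedBall x (2 * (1/8)^m)`.
-/

set_option autoImplicit false

namespace Pool.Agent.Helper22.CD

open MeasureTheory ProbabilityTheory Metric Set
open scoped ENNReal NNReal
open Pool.Agent.Helper3.CD Pool.Agent.Helper16.CD

variable {E : Type} {sh : E → Set Plane}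

theorem dimH_circle : dimH {z : Plane | z.1 ^ 2 + z.2 ^ 2 = 1} ≤ 1 := by
  have hsub : {z : Plane | z.1 ^ 2 + z.2 ^ 2 = 1} ⊆
      range (fun t : ℝ => ((Real.cos t, Real.sin t) : Plane)) := by
    rintro ⟨a, b⟩ h
    have h1 : a ^ 2 + b ^ 2 = 1 := h
    have hn : ‖(⟨a, b⟩ : ℂ)‖ = 1 := by
      rw [Complex.norm_def, Complex.normSq_mk, ← pow_two, ← pow_two, h1, Real.sqrt_one]
    have hne : (⟨a, b⟩ : ℂ) ≠ 0 := by
      intro h0
      rw [h0, norm_zero] at hn
      exact zero_ne_one hn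
    refine ⟨Complex.arg ⟨a, b⟩, ?_⟩
    simp only [Complex.cos_arg hne, Complex.sin_arg, hn, div_one]
  have hc : ContDiff ℝ 1 (fun t : ℝ => ((Real.cos t, Real.sin t) : Plane)) :=
    Real.contDiff_cos.prodMk Real.contDiff_sin
  refine (dimH_mono hsub).trans ((hc.dimH_range_le).trans ?_)
  simp

theorem circle_part {w : Conf E} {Y : Type} [MetricSpace Y] (f : Xs sh w → Y)
    (hf : ∀ x y : Xs sh w, (∀ m, qq m (x : Plane) ∉ GD sh w) →
      (∀ m, qq m (y : Plane) ∉ GD sh w) → dist (f x) (f y) ≤ dist x y) :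
    dimH (f '' {x : Xs sh w | (x : Plane) ∉ oD}) ≤ 1 := by
  have hq : ∀ x : Xs sh w, (x : Plane) ∉ oD → ∀ m, qq m (x : Plane) ∉ GD sh w := by
    intro x hx m hm
    exact hx (hm.2 (mem_cell_qq m x))
  have hlip : LipschitzOnWith 1 f {x : Xs sh w | (x : Plane) ∉ oD} := by
    refine LipschitzOnWith.of_dist_le_mul fun x hx y hy => ?_
    rw [NNReal.coe_one, one_mul]
    exact hf x y (hq x hx) (hq y hy)
  have himg : ((↑) : Xs sh w → Plane) '' {x : Xs sh w | (x : Plane) ∉ oD} ⊆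
      {z : Plane | z.1 ^ 2 + z.2 ^ 2 = 1} := by
    rintro _ ⟨x, hx, rfl⟩
    have h1 : (x : Plane) ∈ cD := x.2.1
    have h2 : ((x : Plane)).1 ^ 2 + ((x : Plane)).2 ^ 2 ≤ 1 := h1
    have h3 : ¬ (((x : Plane)).1 ^ 2 + ((x : Plane)).2 ^ 2 < 1) := hx
    exact le_antisymm h2 (not_lt.1 h3)
  calc dimH (f '' {x : Xs sh w | (x : Plane) ∉ oD})
      ≤ dimH {x : Xs sh w | (x : Plane) ∉ oD} := hlip.dimH_image_le
    _ = dimH (((↑) : Xs sh w → Plane) '' {x : Xs sh w | (x : Plane) ∉ oD}) :=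
        (isometry_subtype_coe.dimH_image _).symm
    _ ≤ dimH {z : Plane | z.1 ^ 2 + z.2 ^ 2 = 1} := dimH_mono himg
    _ ≤ 1 := dimH_circle

theorem inner_part {x : Plane} (hx : x ∈ oD) : ∃ m, big 3 (qq m x) ⊆ oD := by
  have hopen : IsOpen oD := by
    refine isOpen_lt ?_ continuous_const
    fun_prop
  obtain ⟨ε, hε, hball⟩ := Metric.isOpen_iff.1 hopen x hx
  obtain ⟨m, hm⟩ := exists_pow_lt_of_lt_one (show (0 : ℝ) < ε / 2 by positivity)
    (show (1 / 8 : ℝ) < 1 by norm_num)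
  refine ⟨m, fun y hy => hball ?_⟩
  have h1 := mem_cell_qq m x
  rw [cell, big, side_qq, mem_closedBall] at h1
  rw [big, side_qq, mem_closedBall] at hy
  rw [mem_ball]
  have h2 := dist_triangle_right y x (ctr (qq m x))
  linarith

end Pool.Agent.Helper22.CD
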