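import Pool.Agent.Helper22.CD.D5
import Pool.Agent.Helper22.CD.D6
import Pool.Agent.Helper16.CD.KDefs

/-!
# CD-DMain: the upper bound
-/

set_option autoImplicit false

namespace Pool.Agent.Helper22.CD

open MeasureTheory ProbabilityTheory Metric Set
open scoped ENNReal NNReal
open Pool.Agent.Helper3.CD Pool.Agent.Helper16.CD

theorem upper : Iface.Upper := by
  intro E _ ν sh hsh n hn s hs r hΛ
  have hae : ∀ᵐ w ∂(law r ν), ∀ V : Idx,
      Filter.Tendsto (fun N => SN sh n s V N w) Filter.atTop (nhds 0) := by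
    rw [ae_all_iff]
    exact fun V => ae_SN hsh r n s hΛ V
  filter_upwards [hae] with w hw
  intro Y _ f hf h1 h2
  have hcov : (univ : Set Y) ⊆ (f '' {x : Xs sh w | (x : Plane) ∉ oD}) ∪
      ⋃ q : {q : ℕ × Idx // big 3 q.2 ⊆ oD}, f '' {x : Xs sh w | qq q.1.1 (x : Plane) = q.1.2} := by
    intro y _
    obtain ⟨x, rfl⟩ := hf y
    by_cases hx : (x : Plane) ∈ oD
    · obtain ⟨m, hm⟩ := inner_part hx
      right
      rw [mem_iUnion]
      exact ⟨⟨(m, qq m x), hm⟩, x, rfl, rfl⟩
    · left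
      exact ⟨x, hx, rfl⟩
  refine (dimH_mono hcov).trans ?_
  rw [dimH_union, dimH_iUnion]
  refine max_le ?_ (iSup_le fun q => ?_)
  · refine (circle_part f h2).trans ?_
    rw [← ENNReal.ofReal_one]
    exact ENNReal.ofReal_le_ofReal hs
  · exact dimH_square hn hs q.2 (hw q.1.2) f h1

end Pool.Agent.Helper22.CD
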