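import Pool.Agent.Helper22.CD.Base

/-!
Elementary facts on scales, cubes and weights.
-/

namespace CDA

open Finset

theorem sc_spec {t : ℝ} (ht : 0 < t) : ((1 : ℝ) / 8) ^ (sc t + 1) ≤ t := by
  have h : ({N : ℕ | ((1 : ℝ) / 8) ^ (N + 1) ≤ t} : Set ℕ).Nonempty := by
    obtain ⟨n, hn⟩ := exists_pow_lt_of_lt_one ht (by norm_num : (1 : ℝ) / 8 < 1)
    refine ⟨n, le_trans ?_ hn.le⟩
    exact pow_le_pow_of_le_one (by norm_num) (by norm_num) (Nat.le_succ n)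
  exact Nat.sInf_mem h

theorem sc_le {t : ℝ} {N : ℕ} (h : ((1 : ℝ) / 8) ^ (N + 1) ≤ t) : sc t ≤ N := Nat.sInf_le h

theorem sc_lt {t : ℝ} (h : t < 1 ∨ 1 ≤ sc t) : t < ((1 : ℝ) / 8) ^ (sc t) := by
  rcases Nat.eq_zero_or_pos (sc t) with h0 | h0
  · rw [h0, pow_zero]
    rcases h with h | h
    · exact h
    · omega
  · by_contra hlt
    push Not at hlt
    have h1 : sc t ≤ sc t - 1 := by
      apply sc_le
      rwa [Nat.sub_add_cancel h0]
    omega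

theorem le_sc {t : ℝ} {N : ℕ} (ht : 0 < t) (h : t < ((1 : ℝ) / 8) ^ N) : N ≤ sc t := by
  by_contra hlt
  push Not at hlt
  have h1 := sc_spec ht
  have h2 : ((1 : ℝ) / 8) ^ N ≤ ((1 : ℝ) / 8) ^ (sc t + 1) :=
    pow_le_pow_of_le_one (by norm_num) (by norm_num) hlt
  linarith

theorem wt_le (d : ℤ × ℤ) : wt d ≤ 2 := by
  unfold wt; split_ifs <;> norm_num

theorem le_wt (d : ℤ × ℤ) : 1 / 8 ≤ wt d := by
  unfold wt; split_ifs <;> norm_num

theorem w_le (G : Set Cub) (m : ℕ) (z : Pl) : w G m z ≤ 2 := by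
  unfold w; split_ifs
  · exact wt_le _
  · norm_num

theorem le_w (G : Set Cub) (m : ℕ) (z : Pl) : 1 / 8 ≤ w G m z := by
  unfold w; split_ifs
  · exact le_wt _
  · norm_num

theorem w_pos (G : Set Cub) (m : ℕ) (z : Pl) : 0 < w G m z :=
  lt_of_lt_of_le (by norm_num) (le_w G m z)

theorem W_pos (G : Set Cub) (N : ℕ) (z : Pl) : 0 < W G N z :=
  Finset.prod_pos fun m _ => w_pos G m z

theorem W_zero (G : Set Cub) (z : Pl) : W G 0 z = 1 := by simp [W]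

theorem W_succ (G : Set Cub) (N : ℕ) (z : Pl) : W G (N + 1) z = W G N z * w G N z := by
  rw [W, Finset.prod_range_succ]; rfl

theorem W_add_le (G : Set Cub) (N k : ℕ) (z : Pl) : W G (N + k) z ≤ 2 ^ k * W G N z := by
  induction k with
  | zero => simp
  | succ k ih =>
    rw [← Nat.add_assoc, W_succ]
    have h1 := w_le G (N + k) z
    have h2 := W_pos G (N + k) z
    calc W G (N + k) z * w G (N + k) z ≤ W G (N + k) z * 2 := by gcongr
      _ ≤ (2 ^ k * W G N z) * 2 := by gcongr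
      _ = 2 ^ (k + 1) * W G N z := by ring

theorem le_W_add (G : Set Cub) (N k : ℕ) (z : Pl) :
    (1 / 8) ^ k * W G N z ≤ W G (N + k) z := by
  induction k with
  | zero => simp
  | succ k ih =>
    rw [← Nat.add_assoc, W_succ]
    have h1 := le_w G (N + k) z
    have h2 := W_pos G (N + k) z
    calc (1 / 8 : ℝ) ^ (k + 1) * W G N z = ((1 / 8) ^ k * W G N z) * (1 / 8) := by ring
      _ ≤ W G (N + k) z * (1 / 8) := by gcongr
      _ ≤ W G (N + k) z * w G (N + k) z := by gcongr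

theorem floor_div8 (x : ℝ) : ⌊8 * x⌋ / 8 = ⌊x⌋ := by
  symm
  rw [Int.floor_eq_iff]
  have h1 := Int.floor_le (8 * x)
  have h2 := Int.lt_floor_add_one (8 * x)
  have h3 := Int.emod_nonneg ⌊8 * x⌋ (by norm_num : (8 : ℤ) ≠ 0)
  have h4 := Int.emod_lt_of_pos ⌊8 * x⌋ (by norm_num : (0 : ℤ) < 8)
  have h5 := Int.mul_ediv_add_emod ⌊8 * x⌋ 8
  have h6 : (8 : ℝ) * ((⌊8 * x⌋ / 8 : ℤ) : ℝ) + ((⌊8 * x⌋ % 8 : ℤ) : ℝ) = (⌊8 * x⌋ : ℝ) := by
    exact_mod_cast h5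
  have h7 : (0 : ℝ) ≤ ((⌊8 * x⌋ % 8 : ℤ) : ℝ) := by exact_mod_cast h3
  have h8 : ((⌊8 * x⌋ % 8 : ℤ) : ℝ) ≤ 7 := by exact_mod_cast Int.le_of_lt_add_one h4
  constructor <;> linarith

theorem qi_div (m : ℕ) (z : Pl) :
    (qi m z).1 = (qi (m + 1) z).1 / 8 ∧ (qi m z).2 = (qi (m + 1) z).2 / 8 := by
  have h : ∀ x : ℝ, (8 : ℝ) ^ (m + 1) * x = 8 * ((8 : ℝ) ^ m * x) := fun x => by ring
  simp only [qi]
  rw [h, h, floor_div8, floor_div8]
  exact ⟨rfl, rfl⟩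

theorem qi_succ (m : ℕ) (z : Pl) :
    (qi (m + 1) z).1 = 8 * (qi m z).1 + (dig m z).1 ∧
      (qi (m + 1) z).2 = 8 * (qi m z).2 + (dig m z).2 := by
  obtain ⟨h1, h2⟩ := qi_div m z
  rw [h1, h2]
  simp only [dig]
  exact ⟨(Int.mul_ediv_add_emod _ 8).symm, (Int.mul_ediv_add_emod _ 8).symm⟩

theorem dig_bd (m : ℕ) (z : Pl) :
    0 ≤ (dig m z).1 ∧ (dig m z).1 ≤ 7 ∧ 0 ≤ (dig m z).2 ∧ (dig m z).2 ≤ 7 := by
  have h1 := Int.emod_nonneg (qi (m + 1) z).1 (by norm_num : (8 : ℤ) ≠ 0)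
  have h2 := Int.emod_lt_of_pos (qi (m + 1) z).1 (by norm_num : (0 : ℤ) < 8)
  have h3 := Int.emod_nonneg (qi (m + 1) z).2 (by norm_num : (8 : ℤ) ≠ 0)
  have h4 := Int.emod_lt_of_pos (qi (m + 1) z).2 (by norm_num : (0 : ℤ) < 8)
  simp only [dig]
  refine ⟨h1, by omega, h3, by omega⟩

theorem qi_of_succ {m : ℕ} {x y : Pl} (h : qi (m + 1) x = qi (m + 1) y) : qi m x = qi m y := by
  have h1 := qi_div m x
  have h2 := qi_div m y
  rw [h] at h1
  exact Prod.ext (h1.1.trans h2.1.symm) (h1.2.trans h2.2.symm)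

theorem qi_of_le {m N : ℕ} {x y : Pl} (hm : m ≤ N) (h : qi N x = qi N y) : qi m x = qi m y := by
  induction N, hm using Nat.le_induction with
  | base => exact h
  | succ n _ ih => exact ih (qi_of_succ h)

theorem dig_of_succ {m : ℕ} {x y : Pl} (h : qi (m + 1) x = qi (m + 1) y) : dig m x = dig m y := by
  simp only [dig, h]

theorem w_of_succ (G : Set Cub) {m : ℕ} {x y : Pl} (h : qi (m + 1) x = qi (m + 1) y) :
    w G m x = w G m y := by
  unfold w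
  rw [qi_of_succ h, dig_of_succ h]

theorem W_congr (G : Set Cub) {N : ℕ} {x y : Pl} (h : qi N x = qi N y) : W G N x = W G N y := by
  unfold W
  refine Finset.prod_congr rfl fun m hm => w_of_succ G ?_
  exact qi_of_le (Finset.mem_range.1 hm) h

theorem qi_corner (N : ℕ) (v : ℤ × ℤ) : qi N ((v.1 : ℝ) / 8 ^ N, (v.2 : ℝ) / 8 ^ N) = v := by
  have h : ∀ k : ℤ, ⌊(8 : ℝ) ^ N * ((k : ℝ) / 8 ^ N)⌋ = k := by
    intro k
    have h1 : (8 : ℝ) ^ N * ((k : ℝ) / 8 ^ N) = k := by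
      field_simp
    rw [h1, Int.floor_intCast]
  simp only [qi, h]

theorem Wc_qi (G : Set Cub) (N : ℕ) (z : Pl) : Wc G N (qi N z) = W G N z := by
  unfold Wc
  exact W_congr G (qi_corner N _)

theorem Wc_pos (G : Set Cub) (N : ℕ) (v : ℤ × ℤ) : 0 < Wc G N v := W_pos G N _

theorem inC_self (n : ℕ) (z : Pl) : inC n z z := by
  refine ⟨Int.floor_le _, (Int.lt_floor_add_one _).le, Int.floor_le _,
    (Int.lt_floor_add_one _).le⟩

/-- the point in the coordinates of its cube of level `m` -/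
theorem inS_phiI {m : ℕ} {z u : Pl} (h : inC (m + 1) z u) :
    inS (dig m z) (phiI (m, qi m z) u) := by
  obtain ⟨h1, h2, h3, h4⟩ := h
  obtain ⟨e1, e2⟩ := qi_succ m z
  have e1' : ((qi (m + 1) z).1 : ℝ) = 8 * ((qi m z).1 : ℝ) + ((dig m z).1 : ℝ) := by
    exact_mod_cast e1
  have e2' : ((qi (m + 1) z).2 : ℝ) = 8 * ((qi m z).2 : ℝ) + ((dig m z).2 : ℝ) := by
    exact_mod_cast e2
  rw [e1', pow_succ] at h1 h2
  rw [e2', pow_succ] at h3 h4
  refine ⟨?_, ?_, ?_, ?_⟩ <;> simp only [phiI] <;> linarith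

theorem phi_phiI (q : Cub) (z : Pl) : phi q (phiI q z) = z := by
  have h : ((8 : ℝ) ^ q.1) ≠ 0 := by positivity
  apply Prod.ext <;> simp only [phi, phiI] <;> field_simp <;> ring

theorem phiI_phi (q : Cub) (z : Pl) : phiI q (phi q z) = z := by
  have h : ((8 : ℝ) ^ q.1) ≠ 0 := by positivity
  apply Prod.ext <;> simp only [phi, phiI] <;> field_simp <;> ring

theorem not_isR {X : Set Pl} {G : Set Cub} (h : Av X G) {z : Pl} (hz : z ∈ X) {m : ℕ}
    (hm : (m, qi m z) ∈ G) : ¬ isR (dig m z) := by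
  intro hR
  have h1 := h.2 _ hm
  rw [Set.disjoint_left] at h1
  exact h1 hz ⟨phiI (m, qi m z) z, ⟨dig m z, hR, inS_phiI (inC_self (m + 1) z)⟩, phi_phiI _ _⟩

/-- if `x` and `y` lie in different cubes of level `m` and are closer than the side of the
cubes of level `m + 1`, then `x` lies in the outer layer -/
theorem isO_of_ne {m : ℕ} {x y : Pl} (h : qi m x ≠ qi m y) (hd : dist x y < (1 / 8) ^ (m + 1)) :
    isO (dig m x) := by
  have key : ∀ a b : ℝ, |a - b| < 1 → ⌊a⌋ / 8 ≠ ⌊b⌋ / 8 → ⌊a⌋ % 8 = 0 ∨ ⌊a⌋ % 8 = 7 := by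
    intro a b hab hne
    have h1 := abs_lt.1 hab
    have ha1 := Int.floor_le a
    have ha2 := Int.lt_floor_add_one a
    have hb1 := Int.floor_le b
    have hb2 := Int.lt_floor_add_one b
    have h2 : ⌊a⌋ ≤ ⌊b⌋ + 1 := by
      have : (⌊a⌋ : ℝ) < ⌊b⌋ + 2 := by linarith
      have : ⌊a⌋ < ⌊b⌋ + 2 := by exact_mod_cast this
      omega
    have h3 : ⌊b⌋ ≤ ⌊a⌋ + 1 := by
      have : (⌊b⌋ : ℝ) < ⌊a⌋ + 2 := by linarith
      have : ⌊b⌋ < ⌊a⌋ + 2 := by exact_mod_cast this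
      omega
    omega
  have hx := qi_div m x
  have hy := qi_div m y
  have h1 : (qi m x).1 ≠ (qi m y).1 ∨ (qi m x).2 ≠ (qi m y).2 := by
    by_contra hcon
    push Not at hcon
    exact h (Prod.ext hcon.1 hcon.2)
  have hp : (0 : ℝ) < 8 ^ (m + 1) := by positivity
  have hpp : ((1 : ℝ) / 8) ^ (m + 1) * 8 ^ (m + 1) = 1 := by
    rw [← mul_pow]; norm_num
  have hd1 : |x.1 - y.1| < (1 / 8) ^ (m + 1) := by
    have := (le_max_left (dist x.1 y.1) (dist x.2 y.2))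
    rw [← Prod.dist_eq] at this
    rw [← Real.dist_eq]; linarith
  have hd2 : |x.2 - y.2| < (1 / 8) ^ (m + 1) := by
    have := (le_max_right (dist x.1 y.1) (dist x.2 y.2))
    rw [← Prod.dist_eq] at this
    rw [← Real.dist_eq]; linarith
  have hs : ∀ a b : ℝ, |a - b| < (1 / 8) ^ (m + 1) →
      |(8 : ℝ) ^ (m + 1) * a - 8 ^ (m + 1) * b| < 1 := by
    intro a b hab
    rw [← mul_sub, abs_mul, abs_of_pos hp]
    calc (8 : ℝ) ^ (m + 1) * |a - b| < 8 ^ (m + 1) * (1 / 8) ^ (m + 1) := by gcongr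
      _ = 1 := by rw [mul_comm]; exact hpp
  rcases h1 with h1 | h1
  · rw [hx.1, hy.1] at h1
    rcases key _ _ (hs _ _ hd1) h1 with h2 | h2
    · exact Or.inl h2
    · exact Or.inr (Or.inl h2)
  · rw [hx.2, hy.2] at h1
    rcases key _ _ (hs _ _ hd2) h1 with h2 | h2
    · exact Or.inr (Or.inr (Or.inl h2))
    · exact Or.inr (Or.inr (Or.inr h2))

theorem wt_of_isO {d : ℤ × ℤ} (h : isO d) : wt d = 1 := by
  unfold wt
  have h1 : d ≠ (1, 3) := by
    rintro rfl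
    revert h
    decide
  have h2 : ¬ isI d := by
    intro h3
    obtain ⟨a, b, c, e⟩ := h3
    rcases h with h | h | h | h <;> omega
  rw [if_neg h1, if_neg h2]

theorem w_eq_one {G : Set Cub} {m : ℕ} {x y : Pl} (h : qi m x ≠ qi m y)
    (hd : dist x y < (1 / 8) ^ (m + 1)) : w G m x = 1 := by
  unfold w
  split_ifs
  · exact wt_of_isO (isO_of_ne h hd)
  · rfl

/-- if `x` and `y` are closer than the side of the cubes of level `m + 1`, these cubes touch -/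
theorem touch {m : ℕ} {x y : Pl} (hd : dist x y < (1 / 8) ^ (m + 1)) (h : qi m x = qi m y) :
    |(dig m x).1 - (dig m y).1| ≤ 1 ∧ |(dig m x).2 - (dig m y).2| ≤ 1 := by
  have key : ∀ a b : ℝ, |a - b| < 1 → |⌊a⌋ - ⌊b⌋| ≤ 1 := by
    intro a b hab
    have h1 := abs_lt.1 hab
    have ha1 := Int.floor_le a
    have ha2 := Int.lt_floor_add_one a
    have hb1 := Int.floor_le b
    have hb2 := Int.lt_floor_add_one b
    have h2 : ⌊a⌋ ≤ ⌊b⌋ + 1 := by
      have : (⌊a⌋ : ℝ) < ⌊b⌋ + 2 := by linarith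
      have : ⌊a⌋ < ⌊b⌋ + 2 := by exact_mod_cast this
      omega
    have h3 : ⌊b⌋ ≤ ⌊a⌋ + 1 := by
      have : (⌊b⌋ : ℝ) < ⌊a⌋ + 2 := by linarith
      have : ⌊b⌋ < ⌊a⌋ + 2 := by exact_mod_cast this
      omega
    rw [abs_le]
    omega
  have hp : (0 : ℝ) < 8 ^ (m + 1) := by positivity
  have hpp : ((1 : ℝ) / 8) ^ (m + 1) * 8 ^ (m + 1) = 1 := by
    rw [← mul_pow]; norm_num
  have hd1 : |x.1 - y.1| < (1 / 8) ^ (m + 1) := by
    have := (le_max_left (dist x.1 y.1) (dist x.2 y.2))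
    rw [← Prod.dist_eq] at this
    rw [← Real.dist_eq]; linarith
  have hd2 : |x.2 - y.2| < (1 / 8) ^ (m + 1) := by
    have := (le_max_right (dist x.1 y.1) (dist x.2 y.2))
    rw [← Prod.dist_eq] at this
    rw [← Real.dist_eq]; linarith
  have hs : ∀ a b : ℝ, |a - b| < (1 / 8) ^ (m + 1) →
      |(8 : ℝ) ^ (m + 1) * a - 8 ^ (m + 1) * b| < 1 := by
    intro a b hab
    rw [← mul_sub, abs_mul, abs_of_pos hp]
    calc (8 : ℝ) ^ (m + 1) * |a - b| < 8 ^ (m + 1) * (1 / 8) ^ (m + 1) := by gcongr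
      _ = 1 := by rw [mul_comm]; exact hpp
  have h1 := key _ _ (hs _ _ hd1)
  have h2 := key _ _ (hs _ _ hd2)
  obtain ⟨ex1, ex2⟩ := qi_succ m x
  obtain ⟨ey1, ey2⟩ := qi_succ m y
  rw [h] at ex1 ex2
  have h1' : |(qi (m + 1) x).1 - (qi (m + 1) y).1| ≤ 1 := h1
  have h2' : |(qi (m + 1) x).2 - (qi (m + 1) y).2| ≤ 1 := h2
  rw [ex1, ey1] at h1'
  rw [ex2, ey2] at h2'
  rw [abs_le] at h1' h2' ⊢
  rw [abs_le]
  omega

end CDA
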