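import Mathlib

/-!
Project CD, deterministic part: definitions.

The plane is `ℝ × ℝ` with the sup distance.  An 8-adic cube is given by its level `m` and its
index `v`; it is `8 ^ (-m) (v + [0, 1]^2)`.  Each cube is divided into 64 subcubes; positions
are `d = (i, j)` with `0 ≤ i, j ≤ 7`.  `O` is the outer layer (weight 1), `(1, 3)` is the
channel (weight 2), `I` is the inner `4 × 4` block (weight 1 / 8) and `R` is the ring between
the two (without the channel).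
-/

namespace CDA

open Finset

/-- the plane, with the sup distance -/
abbrev Pl := ℝ × ℝ

/-- 8-adic cubes: level and index -/
abbrev Cub := ℕ × ℤ × ℤ

/-- index of the half open 8-adic cube of level `m` that contains `z` -/
noncomputable def qi (m : ℕ) (z : Pl) : ℤ × ℤ := (⌊(8 : ℝ) ^ m * z.1⌋, ⌊(8 : ℝ) ^ m * z.2⌋)

/-- position of the cube `qi (m + 1) z` in the cube `qi m z` -/
noncomputable def dig (m : ℕ) (z : Pl) : ℤ × ℤ :=
  ((qi (m + 1) z).1 % 8, (qi (m + 1) z).2 % 8)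

/-- the outer layer -/
abbrev isO (d : ℤ × ℤ) : Prop := d.1 = 0 ∨ d.1 = 7 ∨ d.2 = 0 ∨ d.2 = 7

/-- the inner block -/
abbrev isI (d : ℤ × ℤ) : Prop := 2 ≤ d.1 ∧ d.1 ≤ 5 ∧ 2 ≤ d.2 ∧ d.2 ≤ 5

/-- the ring -/
abbrev isR (d : ℤ × ℤ) : Prop :=
  1 ≤ d.1 ∧ d.1 ≤ 6 ∧ 1 ≤ d.2 ∧ d.2 ≤ 6 ∧ ¬ isI d ∧ d ≠ (1, 3)

/-- the weight of a position -/
noncomputable def wt (d : ℤ × ℤ) : ℝ := if d = (1, 3) then 2 else if isI d then 1 / 8 else 1

open Classical in
/-- the weight at level `m` of a point, for the marked cubes `G` -/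
noncomputable def w (G : Set Cub) (m : ℕ) (z : Pl) : ℝ :=
  if (m, qi m z) ∈ G then wt (dig m z) else 1

/-- the product of the weights of the levels below `N` -/
noncomputable def W (G : Set Cub) (N : ℕ) (z : Pl) : ℝ := ∏ m ∈ range N, w G m z

/-- the value of `W G N` on the cube of level `N` with index `v` -/
noncomputable def Wc (G : Set Cub) (N : ℕ) (v : ℤ × ℤ) : ℝ :=
  W G N ((v.1 : ℝ) / 8 ^ N, (v.2 : ℝ) / 8 ^ N)

/-- the similarity mapping `[0, 1]^2` to the cube `q` -/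
noncomputable def phi (q : Cub) (z : Pl) : Pl :=
  (((q.2.1 : ℝ) + z.1) / 8 ^ q.1, ((q.2.2 : ℝ) + z.2) / 8 ^ q.1)

/-- the inverse of `phi q` -/
noncomputable def phiI (q : Cub) (z : Pl) : Pl :=
  ((8 : ℝ) ^ q.1 * z.1 - q.2.1, (8 : ℝ) ^ q.1 * z.2 - q.2.2)

/-- `z` lies in the closed subcube of `[0, 1]^2` with position `d` -/
def inS (d : ℤ × ℤ) (z : Pl) : Prop :=
  (d.1 : ℝ) ≤ 8 * z.1 ∧ 8 * z.1 ≤ d.1 + 1 ∧ (d.2 : ℝ) ≤ 8 * z.2 ∧ 8 * z.2 ≤ d.2 + 1

/-- the union of the closed subcubes of the ring -/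
def Hset : Set Pl := {z | ∃ d : ℤ × ℤ, isR d ∧ inS d z}

/-- `X` is bounded and avoids the rings of the marked cubes -/
def Av (X : Set Pl) (G : Set Cub) : Prop :=
  (∀ x ∈ X, ∀ y ∈ X, dist x y ≤ 2) ∧ ∀ q ∈ G, Disjoint X (phi q '' Hset)

/-- the scale of a distance: `8 ^ (-N - 1) ≤ t < 8 ^ (-N)`, and `0` for `t ≥ 1` -/
noncomputable def sc (t : ℝ) : ℕ := sInf {N : ℕ | ((1 : ℝ) / 8) ^ (N + 1) ≤ t}

/-- the modified distance (not symmetric) -/
noncomputable def dl (G : Set Cub) (x y : Pl) : ℝ := W G (sc (dist x y)) x * dist x y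

/-- the length of a chain `c 0, …, c n` -/
noncomputable def len (G : Set Cub) (n : ℕ) (c : ℕ → Pl) : ℝ :=
  ∑ i ∈ range n, max (dl G (c i) (c (i + 1))) (dl G (c (i + 1)) (c i))

/-- the chain metric -/
noncomputable def D (X : Set Pl) (G : Set Cub) (x y : Pl) : ℝ :=
  sInf {t : ℝ | ∃ (n : ℕ) (c : ℕ → Pl), c 0 = x ∧ c n = y ∧ (∀ i ≤ n, c i ∈ X) ∧ t = len G n c}

/-- the collapse of the pattern: identity outside the channel and the inner block, the inner
block goes to the point `(1/8, 7/16)` -/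
noncomputable def col (d : ℤ × ℤ) (z : Pl) : Pl :=
  if d = (1, 3) then
    (1 / 8 + (2 - 8 * z.1) * (z.1 - 1 / 8), 7 / 16 + (2 - 8 * z.1) * (z.2 - 7 / 16))
  else if isI d then (1 / 8, 7 / 16) else z

open Classical in
/-- one step of the collapse -/
noncomputable def stp (G : Set Cub) (m : ℕ) (z u : Pl) : Pl :=
  if (m, qi m z) ∈ G then phi (m, qi m z) (col (dig m z) (phiI (m, qi m z) u)) else u

/-- `Pc G k n z` is the image of `z` under the collapse of the levels `n + k - 1, …, n` -/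
noncomputable def Pc (G : Set Cub) : ℕ → ℕ → Pl → Pl
  | 0, _, z => z
  | k + 1, n, z => stp G n z (Pc G k (n + 1) z)

/-- `u` lies in the closed cube `qi n z` -/
def inC (n : ℕ) (z u : Pl) : Prop :=
  ((qi n z).1 : ℝ) ≤ 8 ^ n * u.1 ∧ 8 ^ n * u.1 ≤ (qi n z).1 + 1 ∧
    ((qi n z).2 : ℝ) ≤ 8 ^ n * u.2 ∧ 8 ^ n * u.2 ≤ (qi n z).2 + 1

/-- quasisymmetric homeomorphisms -/
def QS {X Y : Type*} [MetricSpace X] [MetricSpace Y] (f : X ≃ₜ Y) : Prop :=
  ∃ η : NNReal ≃ₜ NNReal, ∀ (x a b : X) (t : NNReal), dist x a ≤ t * dist x b →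
    dist (f x) (f a) ≤ η t * dist (f x) (f b)

end CDA
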