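import Pool.Agent.Helper22.CD.Inv1

/-!
# CD-D1: points of the carpet are not surrounded by single loops

`fillIn_mono`: for `z ∉ B` use `connectedComponentIn_mono`; for `z ∈ B` the set
`connectedComponentIn Bᶜ z` is empty (`connectedComponentIn_eq_empty`).
`not_single`: let `p` be a present point with `lp sh p ⊆ interior (big 3 V) ⊆ oD`, disjoint from
`big 7 V'`, `ctr V' ∈ fillIn (lp sh p)`.  `big 7 V'` is convex, contains `ctr V'` and lies in the
complement of `lp sh p`, so it is contained in `connectedComponentIn (lp sh p)ᶜ (ctr V')`, which is bounded and is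
the component of all its points: `big 7 V' ⊆ fillIn (lp sh p)`.  Now `lp sh p` is a member of
`loopsIn sh w`, contained in its cluster (`Relation.ReflTransGen.refl`) and in the closure, so
`x ∈ cell V' = closedBall (ctr V') (side V' / 2) ⊆ ball (ctr V') (7 side V' / 2)
⊆ interior (fillIn (closure (cluster ..)))`, against `x ∈ Xs sh w`.
-/

set_option autoImplicit false

namespace Pool.Agent.Helper22.CD

open MeasureTheory ProbabilityTheory Metric Set
open scoped ENNReal NNReal
open Pool.Agent.Helper3.CD Pool.Agent.Helper16.CD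

theorem fillIn_mono {A B : Set Plane} (h : A ⊆ B) : fillIn A ⊆ fillIn B := by
  intro z hz
  have hz' : Bornology.IsBounded (connectedComponentIn Aᶜ z) := hz
  exact hz'.subset (connectedComponentIn_mono z (Set.compl_subset_compl.2 h))

variable {E : Type} {sh : E → Set Plane}

private theorem D1_ball {K : Set Plane} {V' : Idx} (h2 : Disjoint K (big 7 V'))
    (h3 : ctr V' ∈ fillIn K) : big 7 V' ⊆ fillIn K := by
  intro z hz
  have hc : ctr V' ∈ big 7 V' := by
    unfold big
    exact mem_closedBall_self (by have := side_pos V'; positivity)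
  have hpre : IsPreconnected (big 7 V') := (convex_closedBall _ _).isPreconnected
  have hsub : big 7 V' ⊆ Kᶜ := fun y hy hyK => Set.disjoint_left.1 h2 hyK hy
  have h4 := hpre.subset_connectedComponentIn hc hsub hz
  have h5 : Bornology.IsBounded (connectedComponentIn Kᶜ (ctr V')) := h3
  rw [connectedComponentIn_eq h4] at h5
  exact h5

theorem not_single {w : Conf E} {V V' : Idx} (hV : big 3 V ⊆ oD) {x : Plane} (hx : x ∈ Xs sh w)
    (hxV : x ∈ cell V') : w ∈ Ev univ (Singr sh V V') := by
  intro l hl hS
  obtain ⟨p, rfl, -, -, h1, h2, h3⟩ := hS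
  have hp : p ∈ Sp w := (hl p (List.mem_singleton_self p)).1
  have hsub : lp sh p ⊆ oD := (h1.trans interior_subset).trans hV
  have hK : lp sh p ∈ loopsIn sh w := ⟨p, hp, rfl, hsub⟩
  refine hx.2 (lp sh p) hK ?_
  have hcl : lp sh p ⊆ closure (cluster (loopsIn sh w) (lp sh p)) := by
    refine Set.Subset.trans ?_ subset_closure
    intro y hy
    exact Set.mem_sUnion.2 ⟨lp sh p, ⟨hK, Relation.ReflTransGen.refl⟩, hy⟩
  have hb : ball (ctr V') (7 * side V' / 2) ⊆
      fillIn (closure (cluster (loopsIn sh w) (lp sh p))) :=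
    (ball_subset_closedBall.trans (D1_ball h2 h3)).trans (fillIn_mono hcl)
  refine interior_maximal hb isOpen_ball ?_
  have hx1 : dist x (ctr V') ≤ 1 * side V' / 2 := hxV
  have hs := side_pos V'
  rw [mem_ball]
  linarith

end Pool.Agent.Helper22.CD
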