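import Pool.Agent.Helper22.CD.D1
import Pool.Agent.Helper16.CD.QA1

/-!
# CD-D2: weights along the cubes of a point of the carpet

`side_qq`: `side (qq m x) = (1/8)^m`.
`mem_cell_qq`: `x ∈ cell (qq m x)` (`cell i = closedBall (ctr i) (side i / 2)`, sup norm; or `qq_pos`).
`cell_qq_anti`, `big_qq_anti`: for `m ≤ k` the square `qq k x` is contained in `qq m x` (iterate
`up_qq`; `cell i ⊆ cell (up i)` for `3 ≤ i.1`, `big 3 i ⊆ big 3 (up i)`).
`up_iter_qq`: `up^[t] (qq (m + t) x) = qq m x` from `up_qq`.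
`par_qq`: `par n (qq (m + n) x) = qq m x`.
`weights`: `WN G (m + k) x = WN G m x * ∏ i ∈ range k, wgt G (qq (m + i + 1) x)`
(`Finset.prod_range_add`), `WN G m x ≤ 2 ^ m`; for the levels `≥ m` the squares
`qq (m + i) x` have `cell ⊆ big 3 (qq m x) ⊆ oD`, so they are in `GD` iff they are in `Gd`; the
indicator in `Psi` is `1` by `not_single` (with `V = qq (m + n a) x`, `V' = qq (m + n (a+1)) x`,
`par_qq`); the product of the `wgt ^ s` over `t < n` in `Psi (qq (m + n (a+1)) x)` is the product over the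
levels `m + n a + 1, …, m + n (a + 1)` (`Finset.prod_range_reflect`), `Real.finsetProd_rpow`.
Induction on `N`.
-/

set_option autoImplicit false

namespace Pool.Agent.Helper22.CD

open MeasureTheory ProbabilityTheory Metric Set
open scoped ENNReal NNReal
open Pool.Agent.Helper3.CD Pool.Agent.Helper16.CD

theorem side_qq (m : ℕ) (x : Plane) : side (qq m x) = (1 / 8) ^ m := by
  unfold side qq
  simp only
  rw [pow_mul]
  norm_num

private theorem D2_dist (i : Idx) (x : Plane) : dist x (ctr i) =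
    max |x.1 - side i * (i.2.1 + 1 / 2)| |x.2 - side i * (i.2.2 + 1 / 2)| := by
  unfold ctr pos
  rw [Prod.dist_eq, Real.dist_eq, Real.dist_eq]

theorem mem_cell_qq (m : ℕ) (x : Plane) : x ∈ cell (qq m x) := by
  have h8 : (0 : ℝ) < (1 / 8 : ℝ) ^ m := by positivity
  have h1 : (1 / 8 : ℝ) ^ m * 8 ^ m = 1 := by
    rw [← mul_pow]
    norm_num
  have key : ∀ a : ℝ, |a - (1 / 8 : ℝ) ^ m * ((⌊(8 : ℝ) ^ m * a⌋ : ℝ) + 1 / 2)| ≤
      1 * (1 / 8 : ℝ) ^ m / 2 := by
    intro a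
    have h2 := Int.floor_le ((8 : ℝ) ^ m * a)
    have h3 := Int.lt_floor_add_one ((8 : ℝ) ^ m * a)
    have h4 : a - (1 / 8 : ℝ) ^ m * ((⌊(8 : ℝ) ^ m * a⌋ : ℝ) + 1 / 2) =
        (1 / 8 : ℝ) ^ m * ((8 : ℝ) ^ m * a - ⌊(8 : ℝ) ^ m * a⌋ - 1 / 2) := by
      linear_combination (-a) * h1
    rw [h4, abs_mul, abs_of_pos h8]
    have h5 : |(8 : ℝ) ^ m * a - ⌊(8 : ℝ) ^ m * a⌋ - 1 / 2| ≤ 1 / 2 :=
      abs_le.2 ⟨by linarith, by linarith⟩
    nlinarith
  unfold cell big
  rw [mem_closedBall, D2_dist, side_qq]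
  exact max_le (key _) (key _)

private theorem D2_ctr (m : ℕ) (x : Plane) :
    dist (ctr (qq (m + 1) x)) (ctr (qq m x)) ≤ 7 / 16 * (1 / 8) ^ m := by
  have hup := up_qq m x
  have h8 : (0 : ℝ) < (1 / 8 : ℝ) ^ m := by positivity
  have h1 : (qq m x).2.1 = (qq (m + 1) x).2.1 / 8 := by
    rw [← hup]
    rfl
  have h2 : (qq m x).2.2 = (qq (m + 1) x).2.2 / 8 := by
    rw [← hup]
    rfl
  have key : ∀ a b : ℤ, b = a / 8 → |(1 / 8 : ℝ) ^ (m + 1) * ((a : ℝ) + 1 / 2) -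
      (1 / 8 : ℝ) ^ m * ((b : ℝ) + 1 / 2)| ≤ 7 / 16 * (1 / 8) ^ m := by
    intro a b hab
    have h3 : 8 * b ≤ a := by omega
    have h4 : a ≤ 8 * b + 7 := by omega
    have h3' : 8 * (b : ℝ) ≤ a := by exact_mod_cast h3
    have h4' : (a : ℝ) ≤ 8 * b + 7 := by exact_mod_cast h4
    have h5 : (1 / 8 : ℝ) ^ (m + 1) * ((a : ℝ) + 1 / 2) - (1 / 8 : ℝ) ^ m * ((b : ℝ) + 1 / 2) =
        (1 / 8 : ℝ) ^ m * ((a - 8 * b - 7 / 2) / 8) := by ring
    rw [h5, abs_mul, abs_of_pos h8]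
    have h6 : |((a : ℝ) - 8 * b - 7 / 2) / 8| ≤ 7 / 16 := abs_le.2 ⟨by linarith, by linarith⟩
    nlinarith
  rw [D2_dist, side_qq]
  unfold ctr pos
  rw [side_qq]
  exact max_le (key _ _ h1) (key _ _ h2)

theorem big_qq_anti {t : ℝ} (ht : 1 ≤ t) {m k : ℕ} (h : m ≤ k) (x : Plane) :
    big t (qq k x) ⊆ big t (qq m x) := by
  induction k, h using Nat.le_induction with
  | base => exact le_rfl
  | succ k hk ih =>
    refine Subset.trans ?_ ih
    unfold big
    refine closedBall_subset_closedBall' ?_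
    have h1 := D2_ctr k x
    have h8 : (0 : ℝ) < (1 / 8 : ℝ) ^ k := by positivity
    rw [side_qq, side_qq, pow_succ]
    nlinarith

theorem up_iter_qq (t m : ℕ) (x : Plane) : up^[t] (qq (m + t) x) = qq m x := by
  induction t with
  | zero => rfl
  | succ t ih =>
    rw [Function.iterate_succ_apply, ← add_assoc, up_qq, ih]

theorem par_qq (n m : ℕ) (x : Plane) : par n (qq (m + n) x) = qq m x :=
  up_iter_qq n m x

theorem WN_le_two_pow (G : Set Idx) (m : ℕ) (x : Plane) : WN G m x ≤ 2 ^ m := by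
  unfold WN
  have h2 : ∏ i ∈ Finset.range m, wgt G (qq (i + 1) x) ≤ ∏ _i ∈ Finset.range m, (2 : ℝ) :=
    Finset.prod_le_prod (fun i _ => le_trans (by norm_num) (wgt_bounds G _).1)
      fun i _ => (wgt_bounds G _).2
  simpa using h2

variable {E : Type} {sh : E → Set Plane}

/-- the product of the weighted indicators of the last `N` blocks -/
noncomputable def PP (sh : E → Set Plane) (n : ℕ) (s : ℝ) : ℕ → Idx → Conf E → ℝ≥0∞
  | 0, _, _ => 1
  | N + 1, U, w => PP sh n s N (par n U) w * Psi sh n s U w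

private theorem D2_wgt {w : Conf E} {m k : ℕ} {x : Plane} (hV : big 3 (qq m x) ⊆ oD)
    (h : m ≤ k) : wgt (GD sh w) (qq (k + 1) x) = wgt (Gd sh w) (qq (k + 1) x) := by
  have h1 : cell (qq k x) ⊆ oD := by
    refine Subset.trans ?_ ((big_qq_anti (by norm_num : (1 : ℝ) ≤ 3) h x).trans hV)
    unfold cell big
    refine closedBall_subset_closedBall ?_
    rw [side_qq]
    have h8 : (0 : ℝ) < (1 / 8 : ℝ) ^ k := by positivity
    linarith
  have h2 : qq k x ∈ GD sh w ↔ qq k x ∈ Gd sh w := ⟨fun h => h.1, fun h => ⟨h, h1⟩⟩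
  unfold wgt
  rw [up_qq]
  by_cases h3 : qq k x ∈ Gd sh w
  · rw [if_pos h3, if_pos (h2.2 h3)]
  · rw [if_neg h3, if_neg fun h4 => h3 (h2.1 h4)]

private theorem D2_psi {w : Conf E} {n m k : ℕ} {s : ℝ} {x : Plane} (hx : x ∈ Xs sh w)
    (hV : big 3 (qq m x) ⊆ oD) (h : m ≤ k) :
    Psi sh n s (qq (k + n) x) w =
      ∏ i ∈ Finset.range n, ENNReal.ofReal (wgt (GD sh w) (qq (k + i + 1) x) ^ s) := by
  have h1 : w ∈ Ev univ (Singr sh (par n (qq (k + n) x)) (qq (k + n) x)) := by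
    rw [par_qq]
    exact not_single ((big_qq_anti (by norm_num : (1 : ℝ) ≤ 3) h x).trans hV) hx
      (mem_cell_qq _ _)
  unfold Psi
  rw [if_pos h1, one_mul, ← Finset.prod_range_reflect]
  refine Finset.prod_congr rfl fun i hi => ?_
  have hi' := Finset.mem_range.1 hi
  have h2 : up^[n - 1 - i] (qq (k + n) x) = qq (k + i + 1) x := by
    have h3 : k + n = (k + i + 1) + (n - 1 - i) := by omega
    rw [h3, up_iter_qq]
  rw [h2, D2_wgt hV (by omega : m ≤ k + i)]

theorem weights {w : Conf E} {n m : ℕ} {s : ℝ} (hs : 0 ≤ s) {x : Plane} (hx : x ∈ Xs sh w)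
    (hV : big 3 (qq m x) ⊆ oD) (N : ℕ) :
    ENNReal.ofReal (WN (GD sh w) (m + n * N) x ^ s) ≤
      ENNReal.ofReal ((2 ^ m) ^ s) * PP sh n s N (qq (m + n * N) x) w := by
  induction N with
  | zero =>
    rw [mul_zero, add_zero, PP, mul_one]
    exact ENNReal.ofReal_le_ofReal (Real.rpow_le_rpow (WN_pos _ _ _).le
      (WN_le_two_pow _ _ _) hs)
  | succ N ih =>
    have h0 : m + n * (N + 1) = m + n * N + n := by ring
    have hw : ∀ i, 0 ≤ wgt (GD sh w) (qq (m + n * N + i + 1) x) := fun i =>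
      le_trans (by norm_num) (wgt_bounds _ _).1
    have h1 : WN (GD sh w) (m + n * (N + 1)) x = WN (GD sh w) (m + n * N) x *
        ∏ i ∈ Finset.range n, wgt (GD sh w) (qq (m + n * N + i + 1) x) := by
      rw [h0]
      unfold WN
      rw [Finset.prod_range_add]
    rw [h1, Real.mul_rpow (WN_pos _ _ _).le (Finset.prod_nonneg fun i _ => hw i),
      ENNReal.ofReal_mul (Real.rpow_nonneg (WN_pos _ _ _).le _), PP, ← mul_assoc, h0, par_qq,
      D2_psi hx hV (by omega : m ≤ m + n * N), ← Real.finsetProd_rpow _ _ (fun i _ => hw i),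
      ENNReal.ofReal_prod_of_nonneg fun i _ => Real.rpow_nonneg (hw i) _]
    exact mul_le_mul_left ih _

end Pool.Agent.Helper22.CD
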