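import Pool.Agent.Helper22.CD.D2
import Pool.Agent.Helper22.CD.Inv2
import Pool.Agent.Helper3.CD.Indep

/-!
# CD-D3: expectation of the weighted count

`dep_Psi`: `Psi sh n s U` depends only on the cells of level in `[U.1 - 3 n, U.1)`: the levels of the
cell in `Singr sh (par n U) U` are in `[(par n U).1, U.1)`, `(par n U).1 = U.1 - 3 n`
(`up_iter_fst`), and the squares whose goodness matters are `up^[t+1] U`, `t < n`, of level
`U.1 - 3 (t + 1)`; `3 n ≤ U.1`.
`dep_PP`: by induction, `PP sh n s N U` depends only on the cells of level `< U.1`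
(`3 n N ≤ U.1`).
`lint_PP`: `∑ U ∈ desc n V (N+1), PP (N+1) U ≤ ∑ W ∈ desc n V N, ∑ j, PP N W * Psi (child n W j)`
(sum over `biUnion` and `image` is at most the double sum, `par_child`), and the integral of the
product is the product of the integrals (`lintegral_mul_dep`, cells of level `< W.1` and
cells of level in `[W.1, W.1 + 3 n)`), `lint_Psi`.  `level_desc`: `U ∈ desc n V N → U.1 = V.1 + 3 n N`.
-/

set_option autoImplicit false

namespace Pool.Agent.Helper22.CD

open MeasureTheory ProbabilityTheory Metric Set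
open scoped ENNReal NNReal
open Pool.Agent.Helper3.CD Pool.Agent.Helper16.CD

variable {E : Type} {sh : E → Set Plane}

private theorem D3_depEv {A : Set Idx} {R : List (Idx × E) → Prop}
    (hR : ∀ l, R l → ∀ p ∈ l, p.1 ∈ A) : DepOn A (Ev univ R) := by
  have key : ∀ w w' : Conf E, (∀ i ∈ A, w i = w' i) → w ∈ Ev univ R → w' ∈ Ev univ R := by
    intro w w' h hw l hl hRl
    refine hw l (fun p hp => ⟨?_, mem_univ _⟩) hRl
    have h1 := (hl p hp).1
    rw [mem_Sp] at h1 ⊢
    rw [h p.1 (hR l hRl p hp)]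
    exact h1
  exact fun w w' h => ⟨key w w' h, key w' w fun i hi => (h i hi).symm⟩

private theorem D3_par_fst (n : ℕ) (U : Idx) : (par n U).1 = U.1 - 3 * n := up_iter_fst n U

private theorem D3_Gd {w w' : Conf E} {i : Idx} (h : w i = w' i) :
    i ∈ Gd sh w ↔ i ∈ Gd sh w' := by
  have h1 : ∀ e : E, (i, e) ∈ Sp w ↔ (i, e) ∈ Sp w' := by
    intro e
    rw [mem_Sp, mem_Sp]
    simp only [h]
  unfold Gd
  simp only [Set.mem_ofPred_eq, h1]

theorem dep_Psi (sh : E → Set Plane) {n : ℕ} (s : ℝ) {U : Idx} (hU : 3 * n ≤ U.1) :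
    DepOnF {i : Idx | U.1 - 3 * n ≤ i.1 ∧ i.1 < U.1} (Psi sh n s U) := by
  classical
  intro w w' h
  have h1 : w ∈ Ev univ (Singr sh (par n U) U) ↔ w' ∈ Ev univ (Singr sh (par n U) U) := by
    refine D3_depEv (A := {i : Idx | U.1 - 3 * n ≤ i.1 ∧ i.1 < U.1}) ?_ w w' h
    rintro l ⟨q, rfl, hq1, hq2, -⟩ p hp
    rw [List.mem_singleton.1 hp]
    rw [D3_par_fst] at hq1
    exact ⟨hq1, hq2⟩
  unfold Psi
  congr 1
  · simp only [h1]
  · refine Finset.prod_congr rfl fun t ht => ?_
    have ht' := Finset.mem_range.1 ht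
    congr 2
    unfold wgt
    have h2 : up (up^[t] U) ∈ Gd sh w ↔ up (up^[t] U) ∈ Gd sh w' := by
      apply D3_Gd
      apply h
      have h3 : (up (up^[t] U)).1 = U.1 - 3 * (t + 1) := by
        rw [← Function.iterate_succ_apply' up t U]
        exact up_iter_fst (t + 1) U
      change U.1 - 3 * n ≤ (up (up^[t] U)).1 ∧ (up (up^[t] U)).1 < U.1
      rw [h3]
      omega
    simp only [h2]

theorem dep_PP (sh : E → Set Plane) {n : ℕ} (s : ℝ) (N : ℕ) {U : Idx} (hU : 3 * n * N ≤ U.1) :
    DepOnF {i : Idx | i.1 < U.1} (PP sh n s N U) := by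
  induction N generalizing U with
  | zero =>
    intro w w' _
    rfl
  | succ N ih =>
    intro w w' h
    have e : 3 * n * (N + 1) = 3 * n * N + 3 * n := by ring
    rw [e] at hU
    have h1 : 3 * n * N ≤ (par n U).1 := by
      rw [D3_par_fst]
      omega
    have h2 : PP sh n s N (par n U) w = PP sh n s N (par n U) w' := by
      refine ih h1 w w' fun i hi => h i ?_
      have hi' : i.1 < (par n U).1 := hi
      rw [D3_par_fst] at hi'
      change i.1 < U.1
      omega
    have h3 : Psi sh n s U w = Psi sh n s U w' := by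
      refine dep_Psi sh s (by omega) w w' fun i hi => h i ?_
      exact hi.2
    change PP sh n s N (par n U) w * Psi sh n s U w = PP sh n s N (par n U) w' * Psi sh n s U w'
    rw [h2, h3]

theorem level_desc {n : ℕ} {V U : Idx} {N : ℕ} (h : U ∈ desc n V N) : U.1 = V.1 + 3 * n * N := by
  induction N generalizing U with
  | zero =>
    have h1 : U ∈ ({V} : Finset Idx) := h
    rw [Finset.mem_singleton] at h1
    rw [h1]
    simp
  | succ N ih =>
    have h1 : U ∈ (desc n V N).biUnion fun W => Finset.univ.image (child n W) := h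
    rw [Finset.mem_biUnion] at h1
    obtain ⟨W, hW, hU⟩ := h1
    rw [Finset.mem_image] at hU
    obtain ⟨j, -, rfl⟩ := hU
    have h2 := ih hW
    change W.1 + 3 * n = _
    rw [h2]
    ring

variable [MeasurableSpace E] {ν : Measure E}

theorem measurable_PP (h : IsShape ν sh) (n : ℕ) (s : ℝ) (N : ℕ) (U : Idx) :
    Measurable (PP sh n s N U) := by
  induction N generalizing U with
  | zero => exact measurable_const
  | succ N ih => exact (ih (par n U)).mul (measurable_Psi h n s U)

private theorem D3_biUnion {α β : Type*} [DecidableEq β] (s : Finset α) (t : α → Finset β)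
    (f : β → ℝ≥0∞) : ∑ x ∈ s.biUnion t, f x ≤ ∑ a ∈ s, ∑ x ∈ t a, f x := by
  classical
  induction s using Finset.induction_on with
  | empty => simp
  | insert a s ha ih =>
    rw [Finset.biUnion_insert, Finset.sum_insert ha]
    have h1 : ∑ x ∈ t a ∪ s.biUnion t, f x ≤ ∑ x ∈ t a, f x + ∑ x ∈ s.biUnion t, f x := by
      rw [← Finset.sum_union_inter]
      exact le_self_add
    exact h1.trans (by gcongr)

private theorem D3_image {α β : Type*} [DecidableEq β] (s : Finset α) (g : α → β)
    (f : β → ℝ≥0∞) : ∑ x ∈ s.image g, f x ≤ ∑ a ∈ s, f (g a) := by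
  have h1 := D3_biUnion s (fun a => ({g a} : Finset β)) f
  rw [Finset.biUnion_singleton] at h1
  simpa using h1

theorem lint_PP (h : IsShape ν sh) (r : ℝ≥0) (n : ℕ) (s : ℝ) (V : Idx) (N : ℕ) :
    ∫⁻ w, ∑ U ∈ desc n V N, PP sh n s N U w ∂(law r ν) ≤
      (∑ j : J n, ∫⁻ w, Psi sh n s (child n V0 j) w ∂(law r ν)) ^ N := by
  have hprob := h.prob
  induction N with
  | zero =>
    rw [pow_zero]
    have h1 : (fun w : Conf E => ∑ U ∈ desc n V 0, PP sh n s 0 U w) = fun _ => 1 := by
      funext w
      change ∑ U ∈ ({V} : Finset Idx), (1 : ℝ≥0∞) = 1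
      simp
    rw [h1, lintegral_const, measure_univ, mul_one]
  | succ N ih =>
    have h1 : ∀ w : Conf E, ∑ U ∈ desc n V (N + 1), PP sh n s (N + 1) U w ≤
        ∑ W ∈ desc n V N, ∑ j : J n, PP sh n s N W w * Psi sh n s (child n W j) w := by
      intro w
      change ∑ U ∈ (desc n V N).biUnion (fun W => Finset.univ.image (child n W)),
        PP sh n s (N + 1) U w ≤ _
      refine (D3_biUnion _ _ _).trans (Finset.sum_le_sum fun W _ => ?_)
      refine (D3_image _ _ _).trans (le_of_eq (Finset.sum_congr rfl fun j _ => ?_))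
      change PP sh n s N (par n (child n W j)) w * Psi sh n s (child n W j) w = _
      rw [par_child]
    have hm : ∀ (W : Idx) (j : J n),
        Measurable fun w : Conf E => PP sh n s N W w * Psi sh n s (child n W j) w :=
      fun W j => (measurable_PP h n s N W).mul (measurable_Psi h n s _)
    have h2 : ∀ W ∈ desc n V N, ∀ j : J n,
        ∫⁻ w, PP sh n s N W w * Psi sh n s (child n W j) w ∂(law r ν) =
          (∫⁻ w, PP sh n s N W w ∂(law r ν)) *
            ∫⁻ w, Psi sh n s (child n V0 j) w ∂(law r ν) := by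
      intro W hW j
      have hlev := level_desc hW
      have hc : (child n W j).1 = W.1 + 3 * n := rfl
      rw [← lint_Psi h r n s W j]
      refine lintegral_mul_dep (fun _ : Idx => r) (fun _ => ν) {i : Idx | i.1 < W.1}
        {i : Idx | (child n W j).1 - 3 * n ≤ i.1 ∧ i.1 < (child n W j).1} ?_ _ _
        (measurable_PP h n s N W) (measurable_Psi h n s _) (dep_PP sh s N (by omega))
        (dep_Psi sh s (by omega))
      rw [Set.disjoint_left]
      intro i hi hi'
      have h3 : i.1 < W.1 := hi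
      have h4 : (child n W j).1 - 3 * n ≤ i.1 := hi'.1
      rw [hc] at h4
      omega
    calc ∫⁻ w, ∑ U ∈ desc n V (N + 1), PP sh n s (N + 1) U w ∂(law r ν)
        ≤ ∫⁻ w, ∑ W ∈ desc n V N, ∑ j : J n, PP sh n s N W w * Psi sh n s (child n W j) w
            ∂(law r ν) := lintegral_mono h1
      _ = ∑ W ∈ desc n V N, ∑ j : J n,
            ∫⁻ w, PP sh n s N W w * Psi sh n s (child n W j) w ∂(law r ν) := by
          rw [lintegral_finsetSum _ fun W _ => Finset.measurable_fun_sum _ fun j _ => hm W j]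
          refine Finset.sum_congr rfl fun W _ => ?_
          rw [lintegral_finsetSum _ fun j _ => hm W j]
      _ = ∑ W ∈ desc n V N, (∫⁻ w, PP sh n s N W w ∂(law r ν)) *
            ∑ j : J n, ∫⁻ w, Psi sh n s (child n V0 j) w ∂(law r ν) := by
          refine Finset.sum_congr rfl fun W hW => ?_
          rw [Finset.mul_sum]
          exact Finset.sum_congr rfl fun j _ => h2 W hW j
      _ = (∫⁻ w, ∑ W ∈ desc n V N, PP sh n s N W w ∂(law r ν)) *
            ∑ j : J n, ∫⁻ w, Psi sh n s (child n V0 j) w ∂(law r ν) := by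
          rw [← Finset.sum_mul, lintegral_finsetSum _ fun W _ => measurable_PP h n s N W]
      _ ≤ (∑ j : J n, ∫⁻ w, Psi sh n s (child n V0 j) w ∂(law r ν)) ^ N *
            ∑ j : J n, ∫⁻ w, Psi sh n s (child n V0 j) w ∂(law r ν) := by
          gcongr
      _ = _ := (pow_succ _ _).symm

end Pool.Agent.Helper22.CD
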