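import Pool.Agent.Helper22.CD.D3

/-!
# CD-D4: almost sure convergence

Let `q = ENNReal.ofReal (8 ^ (-(n s)))` and `Λ = ∑ j, ∫⁻ Psi`; `q * Λ < 1` because
`Λ < ofReal (8 ^ (n s))`.  `∫⁻ ∑' N, q ^ N * ∑ U, PP ≤ ∑' N, (q Λ) ^ N < ∞` (`lintegral_tsum`,
`lint_PP`, geometric series), so the sum is finite almost everywhere (`ae_lt_top`) and the terms tend to
`0` (`ENNReal.tendsto_atTop_zero_of_tsum_ne_top`).
-/

set_option autoImplicit false

namespace Pool.Agent.Helper22.CD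

open MeasureTheory ProbabilityTheory Metric Set
open scoped ENNReal NNReal
open Pool.Agent.Helper3.CD Pool.Agent.Helper16.CD

variable {E : Type} [MeasurableSpace E] {ν : Measure E} {sh : E → Set Plane}

/-- the normalised weighted count -/
noncomputable def SN (sh : E → Set Plane) (n : ℕ) (s : ℝ) (V : Idx) (N : ℕ) (w : Conf E) :
    ℝ≥0∞ :=
  ENNReal.ofReal ((8 : ℝ) ^ (-((n : ℝ) * s))) ^ N * ∑ U ∈ desc n V N, PP sh n s N U w

theorem ae_SN (h : IsShape ν sh) (r : ℝ≥0) (n : ℕ) (s : ℝ)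
    (hΛ : ∑ j : J n, ∫⁻ w, Psi sh n s (child n V0 j) w ∂(law r ν) <
      ENNReal.ofReal ((8 : ℝ) ^ ((n : ℝ) * s))) (V : Idx) :
    ∀ᵐ w ∂(law r ν), Filter.Tendsto (fun N => SN sh n s V N w) Filter.atTop (nhds 0) := by
  set q : ℝ≥0∞ := ENNReal.ofReal ((8 : ℝ) ^ (-((n : ℝ) * s))) with hq
  set Λ : ℝ≥0∞ := ∑ j : J n, ∫⁻ w, Psi sh n s (child n V0 j) w ∂(law r ν) with hΛdef
  have hmeas1 : ∀ N, Measurable (fun w => ∑ U ∈ desc n V N, PP sh n s N U w) := fun N =>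
    Finset.measurable_sum _ fun U _ => measurable_PP h n s N U
  have hmeas : ∀ N, Measurable (fun w => SN sh n s V N w) := fun N =>
    (hmeas1 N).const_mul _
  have hint : ∀ N, ∫⁻ w, SN sh n s V N w ∂(law r ν) ≤ (q * Λ) ^ N := by
    intro N
    unfold SN
    rw [lintegral_const_mul _ (hmeas1 N), mul_pow]
    exact mul_le_mul_right (lint_PP h r n s V N) _
  have hpos : (0 : ℝ) < (8 : ℝ) ^ (-((n : ℝ) * s)) := Real.rpow_pos_of_pos (by norm_num) _
  have hq0 : q ≠ 0 := by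
    rw [hq, Ne, ENNReal.ofReal_eq_zero, not_le]
    exact hpos
  have hlt : q * Λ < 1 := by
    calc q * Λ < q * ENNReal.ofReal ((8 : ℝ) ^ ((n : ℝ) * s)) :=
          ENNReal.mul_lt_mul_right hq0 ENNReal.ofReal_ne_top hΛ
      _ = 1 := by
          rw [hq, ← ENNReal.ofReal_mul hpos.le, ← Real.rpow_add (by norm_num), neg_add_cancel,
            Real.rpow_zero, ENNReal.ofReal_one]
  have htot : ∫⁻ w, ∑' N, SN sh n s V N w ∂(law r ν) ≠ ⊤ := by
    rw [lintegral_tsum fun N => (hmeas N).aemeasurable]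
    refine ne_top_of_le_ne_top ?_ (ENNReal.tsum_le_tsum hint)
    rw [ENNReal.tsum_geometric]
    exact ENNReal.inv_ne_top.2 (tsub_pos_iff_lt.2 hlt).ne'
  filter_upwards [ae_lt_top (Measurable.ennreal_tsum hmeas) htot] with w hw
  exact ENNReal.tendsto_atTop_zero_of_tsum_ne_top hw.ne

end Pool.Agent.Helper22.CD
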