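import Pool.Agent.Helper22.CD.D4

/-!
# CD-D5: Hausdorff dimension of the image of a small square

Let `V = qq m x₀`-type squares: `V.1 = 3 m`.  For `N` cover `f '' {x | qq m x = V}` by the sets
`T U = f '' {x | qq m x = V ∧ qq (m + n N) x = U}`, `U ∈ desc n V N` (as a `Fintype` index
`↥(desc n V N)`; `qq (m + n N) x ∈ desc n V N` if `qq m x = V`: `qq_mem_desc`, by induction: `qq (k + n) x` is a
child of `qq k x`: digits `⌊8^(k+n) a⌋ - 8^n ⌊8^k a⌋ ∈ [0, 8^n)`).
If `T U` is nonempty, take `x` in the set: `ediam (T U) ≤ ofReal (16 * WN (GD sh w) (m + n N) x * (1/8)^(m + n N))`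
(`ediam_le`, `WN` is the same for all points of the set by `WN_congr`), hence
`ediam (T U) ^ s ≤ C * q ^ N * PP sh n s N U w` with `C = ofReal ((16 * 2^m * (1/8)^m) ^ s)`,
`q = ofReal (8 ^ (-(n s)))` (`weights`); also `ediam (T U) ≤ ofReal (16 * (1/4)^(m + n N))`
(`WN_le_two_pow`), which tends to `0` as `1 ≤ n`.  By `hausdorffMeasure_le_liminf_sum`:
`μH[s] (f '' ..) ≤ liminf C * SN = 0`, so `dimH ≤ s` (`dimH_le_of_hausdorffMeasure_ne_top`; `s` as `ℝ≥0`).
-/

set_option autoImplicit false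

namespace Pool.Agent.Helper22.CD

open MeasureTheory ProbabilityTheory Metric Set
open scoped ENNReal NNReal
open Pool.Agent.Helper3.CD Pool.Agent.Helper16.CD

variable {E : Type} {sh : E → Set Plane}

private theorem D5_floor (k n : ℕ) (a : ℝ) :
    0 ≤ ⌊(8 : ℝ) ^ (k + n) * a⌋ - 8 ^ n * ⌊(8 : ℝ) ^ k * a⌋ ∧
      ⌊(8 : ℝ) ^ (k + n) * a⌋ - 8 ^ n * ⌊(8 : ℝ) ^ k * a⌋ < 8 ^ n := by
  have h1 := Int.floor_le ((8 : ℝ) ^ k * a)
  have h2 := Int.lt_floor_add_one ((8 : ℝ) ^ k * a)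
  have h8 : (0 : ℝ) < (8 : ℝ) ^ n := by positivity
  have e : (8 : ℝ) ^ (k + n) * a = 8 ^ n * ((8 : ℝ) ^ k * a) := by rw [pow_add]; ring
  constructor
  · have h3 : 8 ^ n * ⌊(8 : ℝ) ^ k * a⌋ ≤ ⌊(8 : ℝ) ^ (k + n) * a⌋ := by
      rw [Int.le_floor, e]
      push_cast
      exact mul_le_mul_of_nonneg_left h1 h8.le
    omega
  · have h3 : ⌊(8 : ℝ) ^ (k + n) * a⌋ < 8 ^ n * (⌊(8 : ℝ) ^ k * a⌋ + 1) := by
      rw [Int.floor_lt, e]
      push_cast
      exact mul_lt_mul_of_pos_left h2 h8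
    rw [mul_add, mul_one] at h3
    omega

private theorem D5_child (k n : ℕ) (x : Plane) : ∃ j : J n, qq (k + n) x = child n (qq k x) j := by
  obtain ⟨h1, h2⟩ := D5_floor k n x.1
  obtain ⟨h3, h4⟩ := D5_floor k n x.2
  obtain ⟨u, hu⟩ := Int.eq_ofNat_of_zero_le h1
  obtain ⟨v, hv⟩ := Int.eq_ofNat_of_zero_le h3
  have hu' : u < 8 ^ n := by
    rw [hu] at h2
    exact_mod_cast h2
  have hv' : v < 8 ^ n := by
    rw [hv] at h4
    exact_mod_cast h4
  refine ⟨(⟨u, hu'⟩, ⟨v, hv'⟩), ?_⟩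
  unfold child qq
  simp only
  refine Prod.ext ?_ (Prod.ext ?_ ?_)
  · simp only
    ring
  · simp only
    rw [← hu]
    ring
  · simp only
    rw [← hv]
    ring

theorem qq_mem_desc (n m N : ℕ) (x : Plane) : qq (m + n * N) x ∈ desc n (qq m x) N := by
  induction N with
  | zero =>
    change qq (m + n * 0) x ∈ ({qq m x} : Finset Idx)
    simp
  | succ N ih =>
    change qq (m + n * (N + 1)) x ∈
      (desc n (qq m x) N).biUnion fun W => Finset.univ.image (child n W)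
    rw [Finset.mem_biUnion]
    refine ⟨_, ih, ?_⟩
    obtain ⟨j, hj⟩ := D5_child (m + n * N) n x
    rw [Finset.mem_image]
    refine ⟨j, Finset.mem_univ _, ?_⟩
    rw [← hj]
    congr 1
    ring

private theorem D5_ediam {w : Conf E} {m M : ℕ} {V U : Idx}
    {Y : Type} [MetricSpace Y] (f : Xs sh w → Y)
    (hf : ∀ (N : ℕ) (x y : Xs sh w), qq N x = qq N y →
      dist (f x) (f y) ≤ 16 * WN (GD sh w) N x * (1 / 8) ^ N) (x₀ : Xs sh w)
    (hx₀ : qq M (x₀ : Plane) = U) :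
    ediam (f '' {x : Xs sh w | qq m (x : Plane) = V ∧ qq M (x : Plane) = U}) ≤
      ENNReal.ofReal (16 * WN (GD sh w) M x₀ * (1 / 8) ^ M) := by
  apply ediam_le
  rintro _ ⟨x, ⟨-, hx⟩, rfl⟩ _ ⟨y, ⟨-, hy⟩, rfl⟩
  rw [edist_dist]
  apply ENNReal.ofReal_le_ofReal
  have h1 := hf M x y (hx.trans hy.symm)
  rwa [WN_congr (GD sh w) (hx.trans hx₀.symm)] at h1

theorem dimH_square {w : Conf E} {n : ℕ} (hn : 1 ≤ n) {s : ℝ} (hs : 1 ≤ s) {m : ℕ} {V : Idx}
    (hV : big 3 V ⊆ oD)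
    (hc : Filter.Tendsto (fun N => SN sh n s V N w) Filter.atTop (nhds 0))
    {Y : Type} [MetricSpace Y] (f : Xs sh w → Y)
    (hf : ∀ (N : ℕ) (x y : Xs sh w), qq N x = qq N y →
      dist (f x) (f y) ≤ 16 * WN (GD sh w) N x * (1 / 8) ^ N) :
    dimH (f '' {x : Xs sh w | qq m (x : Plane) = V}) ≤ ENNReal.ofReal s := by
  borelize Y
  have hs0 : 0 ≤ s := by linarith
  set A : Set Y := f '' {x : Xs sh w | qq m (x : Plane) = V} with hA
  let t : ∀ N : ℕ, (desc n V N) → Set Y := fun N U =>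
    f '' {x : Xs sh w | qq m (x : Plane) = V ∧ qq (m + n * N) (x : Plane) = (U : Idx)}
  have hW : ∀ (M : ℕ) (x : Plane), 16 * WN (GD sh w) M x * (1 / 8) ^ M ≤ 16 * (1 / 4) ^ M := by
    intro M x
    have h1 := WN_le_two_pow (GD sh w) M x
    have h8 : (0 : ℝ) < (1 / 8) ^ M := by positivity
    have e : (1 / 4 : ℝ) ^ M = 2 ^ M * (1 / 8) ^ M := by
      rw [← mul_pow]
      norm_num
    rw [e]
    nlinarith
  -- diameters tend to zero
  have hr : Filter.Tendsto (fun N : ℕ => ENNReal.ofReal (16 * (1 / 4) ^ (m + n * N)))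
      Filter.atTop (nhds 0) := by
    rw [← ENNReal.ofReal_zero]
    apply ENNReal.tendsto_ofReal
    have h1 : Filter.Tendsto (fun N : ℕ => m + n * N) Filter.atTop Filter.atTop := by
      apply Filter.tendsto_atTop_mono (fun N => ?_) Filter.tendsto_id
      change N ≤ m + n * N
      nlinarith
    have h2 := (tendsto_pow_atTop_nhds_zero_of_lt_one (by norm_num : (0 : ℝ) ≤ 1 / 4)
      (by norm_num)).comp h1
    have h3 := h2.const_mul 16
    rw [mul_zero] at h3
    exact h3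
  have ht : ∀ N : ℕ, ∀ U : desc n V N,
      ediam (t N U) ≤ ENNReal.ofReal (16 * (1 / 4) ^ (m + n * N)) := by
    intro N U
    rcases (t N U).eq_empty_or_nonempty with h | ⟨_, x₀, ⟨-, hx₀⟩, -⟩
    · rw [h]
      simp
    · exact (D5_ediam f hf x₀ hx₀).trans (ENNReal.ofReal_le_ofReal (hW _ _))
  have hst : ∀ N : ℕ, A ⊆ ⋃ U : desc n V N, t N U := by
    rintro N _ ⟨x, hx, rfl⟩
    have hx' : qq m (x : Plane) = V := hx
    have h1 := qq_mem_desc n m N (x : Plane)
    rw [hx'] at h1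
    exact mem_iUnion.2 ⟨⟨_, h1⟩, x, ⟨hx, rfl⟩, rfl⟩
  set C : ℝ≥0∞ := ENNReal.ofReal ((16 * 2 ^ m * (1 / 8) ^ m) ^ s) with hC
  have hterm : ∀ N : ℕ, ∀ U : desc n V N, ediam (t N U) ^ s ≤
      C * (ENNReal.ofReal ((8 : ℝ) ^ (-((n : ℝ) * s))) ^ N * PP sh n s N (U : Idx) w) := by
    intro N U
    rcases (t N U).eq_empty_or_nonempty with h | ⟨_, x₀, ⟨hx₁, hx₀⟩, -⟩
    · rw [h, ediam_empty, ENNReal.zero_rpow_of_pos (by linarith)]
      exact zero_le
    · have h1 := D5_ediam (m := m) (V := V) f hf x₀ hx₀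
      have hV' : big 3 (qq m (x₀ : Plane)) ⊆ oD := by rw [hx₁]; exact hV
      have h2 := weights (n := n) (s := s) hs0 x₀.2 hV' N
      rw [hx₀] at h2
      have hWpos := (WN_pos (GD sh w) (m + n * N) (x₀ : Plane)).le
      have h3 : ediam (t N U) ^ s ≤
          ENNReal.ofReal ((16 * WN (GD sh w) (m + n * N) x₀ * (1 / 8) ^ (m + n * N)) ^ s) := by
        rw [← ENNReal.ofReal_rpow_of_nonneg (by positivity) hs0]
        exact ENNReal.rpow_le_rpow h1 hs0
      refine h3.trans ?_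
      have e1 : (16 * WN (GD sh w) (m + n * N) x₀ * (1 / 8) ^ (m + n * N)) ^ s =
          (16 * (1 / 8) ^ m) ^ s * (((8 : ℝ) ^ (-((n : ℝ) * s))) ^ N *
            WN (GD sh w) (m + n * N) x₀ ^ s) := by
        have e2 : ((8 : ℝ) ^ (-((n : ℝ) * s))) ^ N = ((1 / 8 : ℝ) ^ (n * N)) ^ s := by
          rw [← Real.rpow_natCast, ← Real.rpow_natCast, ← Real.rpow_mul (by norm_num),
            ← Real.rpow_mul (by norm_num), one_div, Real.inv_rpow (by norm_num),
            ← Real.rpow_neg (by norm_num)]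
          congr 1
          push_cast
          ring
        rw [e2, ← Real.mul_rpow (by positivity) hWpos, ← Real.mul_rpow (by positivity)
          (by positivity)]
        congr 1
        rw [pow_add]
        ring
      have e3 : C = ENNReal.ofReal ((16 * (1 / 8) ^ m) ^ s) * ENNReal.ofReal ((2 ^ m) ^ s) := by
        rw [hC, ← ENNReal.ofReal_mul (by positivity), ← Real.mul_rpow (by positivity)
          (by positivity)]
        congr 2
        ring
      rw [e1, ENNReal.ofReal_mul (by positivity), ENNReal.ofReal_mul (by positivity),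
        ENNReal.ofReal_pow (by positivity), e3]
      calc ENNReal.ofReal ((16 * (1 / 8) ^ m) ^ s) *
            (ENNReal.ofReal ((8 : ℝ) ^ (-((n : ℝ) * s))) ^ N *
              ENNReal.ofReal (WN (GD sh w) (m + n * N) x₀ ^ s))
          ≤ ENNReal.ofReal ((16 * (1 / 8) ^ m) ^ s) *
            (ENNReal.ofReal ((8 : ℝ) ^ (-((n : ℝ) * s))) ^ N *
              (ENNReal.ofReal ((2 ^ m) ^ s) * PP sh n s N (U : Idx) w)) := by gcongr
        _ = _ := by ring
  have hsum : ∀ N : ℕ, ∑ U : desc n V N, ediam (t N U) ^ s ≤ C * SN sh n s V N w := by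
    intro N
    calc ∑ U : desc n V N, ediam (t N U) ^ s
        ≤ ∑ U : desc n V N, C * (ENNReal.ofReal ((8 : ℝ) ^ (-((n : ℝ) * s))) ^ N *
            PP sh n s N (U : Idx) w) := Finset.sum_le_sum fun U _ => hterm N U
      _ = ∑ U ∈ desc n V N, C * (ENNReal.ofReal ((8 : ℝ) ^ (-((n : ℝ) * s))) ^ N *
            PP sh n s N U w) := Finset.sum_coe_sort (desc n V N) (fun U : Idx =>
              C * (ENNReal.ofReal ((8 : ℝ) ^ (-((n : ℝ) * s))) ^ N * PP sh n s N U w))
      _ = _ := by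
        unfold SN
        rw [Finset.mul_sum, Finset.mul_sum]
  have hlim : Filter.Tendsto (fun N => C * SN sh n s V N w) Filter.atTop (nhds 0) := by
    have h1 := ENNReal.Tendsto.const_mul (a := C) hc (Or.inr ENNReal.ofReal_ne_top)
    rwa [mul_zero] at h1
  have hmu : μH[s] A ≤ 0 := by
    have h1 := Measure.hausdorffMeasure_le_liminf_sum s A _ hr t (Filter.Eventually.of_forall ht)
      (Filter.Eventually.of_forall hst)
    refine h1.trans ?_
    rw [← hlim.liminf_eq]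
    exact Filter.liminf_le_liminf (Filter.Eventually.of_forall hsum)
  have hfin : μH[((s.toNNReal : ℝ≥0) : ℝ)] A ≠ ⊤ := by
    rw [Real.coe_toNNReal s hs0, le_antisymm hmu zero_le]
    exact ENNReal.zero_ne_top
  exact dimH_le_of_hausdorffMeasure_ne_top hfin

end Pool.Agent.Helper22.CD
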