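import Pool.Agent.Helper16.CD.Defs

/-!
# CD-Inv1: scaling of cells and sets

`pos V z = side V • (V.2 + z)`: a similarity of ratio `side V = (1/2)^V.1 > 0` of the plane, a
homeomorphism with inverse `z ↦ z / side V - V.2`.  All statements are direct; for `fillIn_pos` use
`Homeomorph.image_connectedComponentIn` (or the two inclusions with
`IsPreconnected.subset_connectedComponentIn`) and that bounded sets go to bounded sets in both
directions; `cthickening`: `infEDist (pos V a) (pos V '' A) = ofReal (side V) * infEDist a A`.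
-/

set_option autoImplicit false

namespace Pool.Agent.Helper22.CD

open MeasureTheory ProbabilityTheory Metric Set
open scoped ENNReal NNReal
open Pool.Agent.Helper3.CD Pool.Agent.Helper16.CD
open scoped Pointwise

/-- cells of level `k` go to cells of level `V.1 + k` by the similarity `pos V` -/
def sft (V i : Idx) : Idx := (V.1 + i.1, i.2.1 + 2 ^ i.1 * V.2.1, i.2.2 + 2 ^ i.1 * V.2.2)

theorem sft_V0 (V : Idx) : sft V V0 = V := by
  simp [sft, V0]

theorem sft_inj (V : Idx) : Function.Injective (sft V) := by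
  rintro ⟨a, b, c⟩ ⟨a', b', c'⟩ h
  simp only [sft, Prod.mk.injEq] at h
  obtain ⟨h1, h2, h3⟩ := h
  have h4 : a = a' := by omega
  subst h4
  simp only [Prod.mk.injEq]
  exact ⟨trivial, by linarith, by linarith⟩

theorem exists_sft {V i : Idx} (h : V.1 ≤ i.1) : ∃ j, sft V j = i := by
  refine ⟨(i.1 - V.1, i.2.1 - 2 ^ (i.1 - V.1) * V.2.1, i.2.2 - 2 ^ (i.1 - V.1) * V.2.2), ?_⟩
  obtain ⟨a, b, c⟩ := i
  simp only [sft, Prod.mk.injEq]
  exact ⟨by simp only at h; omega, by ring, by ring⟩

theorem side_pos (i : Idx) : 0 < side i := by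
  unfold side; positivity

theorem side_sft (V i : Idx) : side (sft V i) = side V * side i := by
  unfold side sft
  rw [pow_add]

private theorem Inv1_side (i : Idx) : side i * 2 ^ i.1 = 1 := by
  unfold side
  rw [← mul_pow]
  norm_num

theorem pos_sft (V i : Idx) (z : Plane) : pos (sft V i) z = pos V (pos i z) := by
  have h1 := Inv1_side i
  unfold pos
  rw [side_sft]
  simp only [sft, Prod.mk.injEq]
  push_cast
  constructor
  · linear_combination side V * (V.2.1 : ℝ) * h1
  · linear_combination side V * (V.2.2 : ℝ) * h1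

private theorem Inv1_pos (V : Idx) (z : Plane) :
    pos V z = side V • ((((V.2.1 : ℝ), (V.2.2 : ℝ)) : Plane) + z) := rfl

theorem dist_pos (V : Idx) (x y : Plane) : dist (pos V x) (pos V y) = side V * dist x y := by
  rw [Inv1_pos, Inv1_pos, dist_smul₀, dist_add_left, Real.norm_of_nonneg (side_pos V).le]

theorem pos_inj (V : Idx) : Function.Injective (pos V) := by
  intro x y h
  have h1 := dist_pos V x y
  rw [h, dist_self] at h1
  exact dist_eq_zero.1 ((mul_eq_zero.1 h1.symm).resolve_left (side_pos V).ne')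

theorem pos_surj (V : Idx) : Function.Surjective (pos V) := by
  intro z
  refine ⟨(side V)⁻¹ • z - (((V.2.1 : ℝ), (V.2.2 : ℝ)) : Plane), ?_⟩
  rw [Inv1_pos, add_sub_cancel, smul_smul, mul_inv_cancel₀ (side_pos V).ne', one_smul]

private theorem Inv1_cont (V : Idx) : Continuous (pos V) := by
  unfold pos
  fun_prop

/-- the homeomorphism `pos V` -/
private noncomputable def Inv1_homeo (V : Idx) : Plane ≃ₜ Plane where
  toFun := pos V
  invFun := fun z => (side V)⁻¹ • z - (((V.2.1 : ℝ), (V.2.2 : ℝ)) : Plane)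
  left_inv := fun z => by
    simp only [Inv1_pos]
    rw [smul_smul, inv_mul_cancel₀ (side_pos V).ne', one_smul, add_sub_cancel_left]
  right_inv := fun z => by
    simp only [Inv1_pos]
    rw [add_sub_cancel, smul_smul, mul_inv_cancel₀ (side_pos V).ne', one_smul]
  continuous_toFun := Inv1_cont V
  continuous_invFun := by fun_prop

private theorem Inv1_coe (V : Idx) : (Inv1_homeo V : Plane → Plane) = pos V := rfl

private theorem Inv1_image (V : Idx) (A : Set Plane) :
    pos V '' A = side V • ((fun z => (((V.2.1 : ℝ), (V.2.2 : ℝ)) : Plane) + z) '' A) := by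
  ext z
  simp only [Set.mem_image, Set.mem_smul_set]
  constructor
  · rintro ⟨x, hx, rfl⟩
    exact ⟨_, ⟨x, hx, rfl⟩, rfl⟩
  · rintro ⟨_, ⟨x, hx, rfl⟩, rfl⟩
    exact ⟨x, hx, rfl⟩

theorem ctr_sft (V i : Idx) : ctr (sft V i) = pos V (ctr i) := by
  unfold ctr; rw [pos_sft]

theorem image_closedBall (V : Idx) (x : Plane) (R : ℝ) :
    pos V '' closedBall x R = closedBall (pos V x) (side V * R) := by
  ext z
  obtain ⟨y, rfl⟩ := pos_surj V z
  rw [(pos_inj V).mem_set_image, mem_closedBall, mem_closedBall, dist_pos,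
    mul_le_mul_iff_right₀ (side_pos V)]

theorem big_sft (t : ℝ) (V i : Idx) : big t (sft V i) = pos V '' big t i := by
  unfold big
  rw [image_closedBall, ctr_sft, side_sft]
  congr 1
  ring

theorem interior_pos (V : Idx) (A : Set Plane) : interior (pos V '' A) = pos V '' interior A := by
  rw [← Inv1_coe, Homeomorph.image_interior]

theorem diam_pos (V : Idx) (A : Set Plane) : diam (pos V '' A) = side V * diam A := by
  rw [Inv1_image, diam_smul₀, Real.norm_of_nonneg (side_pos V).le,
    (isometry_add_left _).diam_image]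

theorem cthickening_pos (V : Idx) {δ : ℝ} (hδ : 0 ≤ δ) (A : Set Plane) :
    cthickening (side V * δ) (pos V '' A) = pos V '' cthickening δ A := by
  ext z
  obtain ⟨y, rfl⟩ := pos_surj V z
  have hs := side_pos V
  rw [(pos_inj V).mem_set_image, mem_cthickening_iff, mem_cthickening_iff, Inv1_image, Inv1_pos,
    infEDist_smul₀ hs.ne', infEDist_image (isometry_add_left _), ENNReal.ofReal_mul hs.le]
  have h1 : ((‖side V‖₊ : ℝ≥0∞)) = ENNReal.ofReal (side V) := by
    rw [← ENNReal.ofReal_coe_nnreal, coe_nnnorm, Real.norm_of_nonneg hs.le]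
  rw [ENNReal.smul_def, smul_eq_mul, h1]
  exact ENNReal.mul_le_mul_iff_right (ENNReal.ofReal_pos.2 hs).ne' ENNReal.ofReal_ne_top

private theorem Inv1_bdd (V : Idx) (A : Set Plane) :
    Bornology.IsBounded (pos V '' A) ↔ Bornology.IsBounded A := by
  have hs := side_pos V
  rw [Metric.isBounded_iff, Metric.isBounded_iff]
  constructor
  · rintro ⟨C, hC⟩
    refine ⟨C / side V, fun x hx y hy => ?_⟩
    have h1 := hC (mem_image_of_mem _ hx) (mem_image_of_mem _ hy)
    rw [dist_pos] at h1
    rw [le_div_iff₀ hs]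
    linarith
  · rintro ⟨C, hC⟩
    refine ⟨side V * C, ?_⟩
    rintro _ ⟨x, hx, rfl⟩ _ ⟨y, hy, rfl⟩
    rw [dist_pos]
    exact mul_le_mul_of_nonneg_left (hC hx hy) hs.le

theorem fillIn_pos (V : Idx) (A : Set Plane) : fillIn (pos V '' A) = pos V '' fillIn A := by
  ext z
  obtain ⟨y, rfl⟩ := pos_surj V z
  rw [(pos_inj V).mem_set_image]
  simp only [fillIn, Set.mem_ofPred_eq]
  have h1 : (pos V '' A)ᶜ = pos V '' Aᶜ := by
    rw [← Inv1_coe, Set.image_compl_eq (Inv1_homeo V).bijective]
  rw [h1]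
  by_cases hy : y ∈ Aᶜ
  · rw [← Inv1_coe, ← Homeomorph.image_connectedComponentIn _ hy, Inv1_coe, Inv1_bdd]
  · rw [connectedComponentIn_eq_empty hy, connectedComponentIn_eq_empty (by
      rw [(pos_inj V).mem_set_image]
      exact hy)]

theorem child_sft (n : ℕ) (V U : Idx) (j : J n) : child n (sft V U) j = sft V (child n U j) := by
  have h8 : (8 : ℤ) ^ n = 2 ^ (3 * n) := by
    rw [pow_mul]
    norm_num
  unfold child sft
  simp only [Prod.mk.injEq]
  refine ⟨by ring, ?_, ?_⟩
  · rw [h8, pow_add]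
    ring
  · rw [h8, pow_add]
    ring

theorem child_eq (n : ℕ) (V : Idx) (j : J n) : child n V j = sft V (child n V0 j) := by
  conv_lhs => rw [← sft_V0 V]
  exact child_sft n V V0 j

private theorem Inv1_pow {k : ℕ} (h : 3 ≤ k) : (2 : ℤ) ^ k = 8 * 2 ^ (k - 3) := by
  obtain ⟨m, rfl⟩ := Nat.exists_eq_add_of_le h
  rw [Nat.add_sub_cancel_left, pow_add]
  norm_num

theorem up_sft {V i : Idx} (h : 3 ≤ i.1) : up (sft V i) = sft V (up i) := by
  unfold up sft
  simp only [Prod.mk.injEq]
  rw [Inv1_pow h]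
  refine ⟨by omega, ?_, ?_⟩
  · rw [mul_assoc, Int.add_mul_ediv_left _ _ (by norm_num)]
  · rw [mul_assoc, Int.add_mul_ediv_left _ _ (by norm_num)]

theorem dig_sft {V i : Idx} (h : 3 ≤ i.1) : dig (sft V i) = dig i := by
  unfold dig sft
  simp only [Prod.mk.injEq]
  rw [Inv1_pow h]
  refine ⟨?_, ?_⟩
  · rw [mul_assoc, Int.add_mul_emod_self_left]
  · rw [mul_assoc, Int.add_mul_emod_self_left]

private theorem Inv1_iter (t : ℕ) (i : Idx) :
    up^[t] i = (i.1 - 3 * t, i.2.1 / 8 ^ t, i.2.2 / 8 ^ t) := by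
  induction t with
  | zero => simp
  | succ t ih =>
    rw [Function.iterate_succ_apply', ih]
    unfold up
    simp only [Prod.mk.injEq]
    refine ⟨by omega, ?_, ?_⟩
    · rw [pow_succ, Int.ediv_ediv_of_nonneg (by positivity)]
    · rw [pow_succ, Int.ediv_ediv_of_nonneg (by positivity)]

/-- the parent of a block child -/
theorem par_child (n : ℕ) (V : Idx) (j : J n) : par n (child n V j) = V := by
  have h8 : (0 : ℤ) < 8 ^ n := by positivity
  have key : ∀ (v : ℤ) (k : Fin (8 ^ n)), (8 ^ n * v + (k.1 : ℤ)) / 8 ^ n = v := by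
    intro v k
    have hk : (k.1 : ℤ) < 8 ^ n := by exact_mod_cast k.2
    rw [add_comm, Int.add_mul_ediv_left _ _ h8.ne', Int.ediv_eq_zero_of_lt (by positivity) hk,
      zero_add]
  unfold par
  rw [Inv1_iter]
  unfold child
  rw [key, key, Nat.add_sub_cancel]

/-- the level of the iterated parent -/
theorem up_iter_fst (t : ℕ) (i : Idx) : (up^[t] i).1 = i.1 - 3 * t := by
  rw [Inv1_iter]

end Pool.Agent.Helper22.CD
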