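import Pool.Agent.Helper22.CD.Inv2
import Pool.Agent.Helper3.CD.EvShift

/-!
# CD-Inv3: scaling of the conditions inside a square
-/

set_option autoImplicit false

namespace Pool.Agent.Helper22.CD

open MeasureTheory ProbabilityTheory Metric Set
open scoped ENNReal NNReal
open Pool.Agent.Helper3.CD Pool.Agent.Helper16.CD

variable {E : Type}

theorem par_sft {n : ℕ} (T : Idx) {V : Idx} (h : 3 * n ≤ V.1) :
    par n (sft T V) = sft T (par n V) := by
  unfold par
  induction n generalizing V with
  | zero => rfl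
  | succ n ih =>
    rw [Function.iterate_succ_apply, Function.iterate_succ_apply, up_sft (by omega)]
    apply ih
    have : (up V).1 = V.1 - 3 := rfl
    omega

theorem par_fst (n : ℕ) (V : Idx) : (par n V).1 = V.1 - 3 * n := up_iter_fst n V

theorem badP_sp (sh : E → Set Plane) (n : ℕ) {τ : ℝ} (hτ : 0 ≤ τ) (T : Idx) (b : ℕ) {V : Idx}
    (hV : 3 * n * b ≤ V.1) (l : List (Idx × E)) :
    badP sh n τ b (sft T V) (l.map (sp T)) ↔ badP sh n τ b V l := by
  induction b generalizing V with
  | zero => exact Iff.rfl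
  | succ b ih =>
    have h1 : 3 * n * b + 3 * n ≤ V.1 := by
      calc 3 * n * b + 3 * n = 3 * n * (b + 1) := by ring
        _ ≤ V.1 := hV
    have h2 : 3 * n ≤ V.1 := by omega
    have h3 : 3 * n * b ≤ (par n V).1 := by
      rw [par_fst]
      omega
    unfold badP
    rw [par_sft T h2, ih h3, bad_sp sh hτ]

theorem inC_sft (T U : Idx) : inC (sft T U) = sft T '' inC U := by
  ext i
  constructor
  · rintro ⟨h1, h2⟩
    obtain ⟨j, rfl⟩ := exists_sft (V := T) (i := i) (by
      have : (sft T U).1 = T.1 + U.1 := rfl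
      omega)
    refine ⟨j, ⟨?_, ?_⟩, rfl⟩
    · have h3 : (sft T U).1 = T.1 + U.1 := rfl
      have h4 : (sft T j).1 = T.1 + j.1 := rfl
      omega
    · have h3 : cell (sft T j) = Pool.Agent.Helper16.CD.pos T '' cell j := big_sft 1 T j
      rw [h3, big_sft] at h2
      exact (Set.image_subset_image_iff (pos_inj T)).1 h2
  · rintro ⟨j, ⟨h1, h2⟩, rfl⟩
    refine ⟨?_, ?_⟩
    · have h3 : (sft T U).1 = T.1 + U.1 := rfl
      have h4 : (sft T j).1 = T.1 + j.1 := rfl
      omega
    · have h3 : cell (sft T j) = Pool.Agent.Helper16.CD.pos T '' cell j := big_sft 1 T j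
      rw [h3, big_sft]
      exact Set.image_mono h2

variable [MeasurableSpace E] {ν : Measure E} {sh : E → Set Plane}

theorem prob_badP_inC (h : IsShape ν sh) (r : ℝ≥0) {τ : ℝ} (hτ : 0 < τ) (n b : ℕ) (T U : Idx)
    {V : Idx} (hV : 3 * n * b ≤ V.1) :
    law r ν (Ev (inC (sft T U)) (badP sh n τ b (sft T V))) =
      law r ν (Ev (inC U) (badP sh n τ b V)) := by
  have := h.prob
  have h1 := law_Ev_image r ν (sft T) (sft_inj T) (inC U) (inC (sft T U)) (inC_sft T U).symm
    (badP sh n τ b V) (badP sh n τ b (sft T V)) (measR_badP h n hτ b V)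
    (fun l _ => badP_sp sh n hτ.le T b hV l)
  exact h1

end Pool.Agent.Helper22.CD
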