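import Pool.Agent.Helper16.CD.Defs

/-!
# CD-M1: random compact sets, elementary events

`RK U`: `U ω` is compact and nonempty and `ω ↦ infDist z (U ω)` is measurable for all `z`.

* `RK.union`: `infDist z (A ∪ B) = min (infDist z A) (infDist z B)`.
* `RK.pos`: `infDist z (pos i '' A) = side i * infDist y A` with `pos i y = z`
  (`dist (pos i a) (pos i b) = side i * dist a b`).
* `meas_hit`: `(A ∩ closedBall x R).Nonempty` iff `infDist x A ≤ R`.
* `meas_inter`: for compact nonempty `A`, `B`: `(A ∩ B).Nonempty` iff for all `n : ℕ` there is `k`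
  with `infDist (denseSeq Plane k) A < 1 / (n + 1)` and the same for `B` (otherwise `infDist · B`
  attains a positive minimum on `A`).
* `meas_disj_compact`: the complement of `meas_inter` with a constant second set.
-/

set_option autoImplicit false

namespace Pool.Agent.Helper22.CD

open MeasureTheory ProbabilityTheory Metric Set
open scoped ENNReal NNReal
open Pool.Agent.Helper3.CD Pool.Agent.Helper16.CD

/-- random compact sets -/
structure RK {Ω : Type*} [MeasurableSpace Ω] (U : Ω → Set Plane) : Prop where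
  compact : ∀ ω, IsCompact (U ω)
  ne : ∀ ω, (U ω).Nonempty
  meas : ∀ z, Measurable fun ω => infDist z (U ω)

variable {Ω : Type*} [MeasurableSpace Ω] {U U' : Ω → Set Plane}

theorem RK.comp {Ω' : Type*} [MeasurableSpace Ω'] {g : Ω' → Ω} (h : RK U) (hg : Measurable g) :
    RK (fun ω => U (g ω)) :=
  ⟨fun _ => h.compact _, fun _ => h.ne _, fun z => (h.meas z).comp hg⟩

private theorem M1_side_pos (i : Idx) : 0 < side i := by
  unfold side
  positivity

private theorem M1_dist (i : Idx) (a b : Plane) :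
    dist (pos i a) (pos i b) = side i * dist a b := by
  have hs := M1_side_pos i
  have h : ∀ c x y : ℝ, |side i * (c + x) - side i * (c + y)| = side i * |x - y| := by
    intro c x y
    rw [← mul_sub, abs_mul, abs_of_pos hs, add_sub_add_left_eq_sub]
  rw [Prod.dist_eq, Prod.dist_eq, Real.dist_eq, Real.dist_eq, Real.dist_eq, Real.dist_eq]
  unfold pos
  rw [h, h, mul_max_of_nonneg _ _ hs.le]

private theorem M1_cont (i : Idx) : Continuous (pos i) := by
  unfold pos
  fun_prop

private theorem M1_union {A B : Set Plane} (hA : A.Nonempty) (hB : B.Nonempty) (z : Plane) :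
    infDist z (A ∪ B) = min (infDist z A) (infDist z B) := by
  unfold infDist
  rw [infEDist_union]
  exact ENNReal.toReal_min (infEDist_ne_top hA) (infEDist_ne_top hB)

private theorem M1_pos {A : Set Plane} (hA : IsCompact A) (hne : A.Nonempty) (i : Idx)
    (y : Plane) : infDist (pos i y) (pos i '' A) = side i * infDist y A := by
  have hs := M1_side_pos i
  apply le_antisymm
  · obtain ⟨a, ha, h⟩ := hA.exists_infDist_eq_dist hne y
    rw [h, ← M1_dist]
    exact infDist_le_dist_of_mem (mem_image_of_mem _ ha)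
  · obtain ⟨b, hb, h⟩ := (hA.image (M1_cont i)).exists_infDist_eq_dist (hne.image _) (pos i y)
    obtain ⟨a, ha, rfl⟩ := hb
    rw [h, M1_dist]
    exact mul_le_mul_of_nonneg_left (infDist_le_dist_of_mem ha) hs.le

private theorem M1_hit {A : Set Plane} (hA : IsCompact A) (hne : A.Nonempty) (x : Plane)
    (R : ℝ) : (A ∩ closedBall x R).Nonempty ↔ infDist x A ≤ R := by
  constructor
  · rintro ⟨a, ha, hb⟩
    refine (infDist_le_dist_of_mem ha).trans ?_
    rw [dist_comm]
    exact mem_closedBall.1 hb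
  · intro h
    obtain ⟨a, ha, hd⟩ := hA.exists_infDist_eq_dist hne x
    refine ⟨a, ha, mem_closedBall.2 ?_⟩
    rw [dist_comm, ← hd]
    exact h

private theorem M1_inter {A B : Set Plane} (hA : IsCompact A) (hneA : A.Nonempty)
    (hB : IsCompact B) (hneB : B.Nonempty) :
    (A ∩ B).Nonempty ↔ ∀ n : ℕ, ∃ k : ℕ,
      infDist (TopologicalSpace.denseSeq Plane k) A < 1 / ((n : ℝ) + 1) ∧
      infDist (TopologicalSpace.denseSeq Plane k) B < 1 / ((n : ℝ) + 1) := by
  constructor
  · rintro ⟨p, hpA, hpB⟩ n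
    have hpos : (0 : ℝ) < 1 / ((n : ℝ) + 1) := by positivity
    obtain ⟨k, hk⟩ := (TopologicalSpace.denseRange_denseSeq Plane).exists_dist_lt p hpos
    rw [dist_comm] at hk
    exact ⟨k, (infDist_le_dist_of_mem hpA).trans_lt hk, (infDist_le_dist_of_mem hpB).trans_lt hk⟩
  · intro h
    obtain ⟨a0, ha0, hmin⟩ := hA.exists_isMinOn hneA (continuous_infDist_pt B).continuousOn
    refine ⟨a0, ha0, ?_⟩
    rw [hB.isClosed.mem_iff_infDist_zero hneB]
    by_contra hne
    have hm : 0 < infDist a0 B := lt_of_le_of_ne infDist_nonneg (Ne.symm hne)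
    obtain ⟨n, hn⟩ := exists_nat_one_div_lt (half_pos hm)
    obtain ⟨k, hk1, hk2⟩ := h n
    obtain ⟨a, ha, hd⟩ := hA.exists_infDist_eq_dist hneA (TopologicalSpace.denseSeq Plane k)
    have h1 : infDist a0 B ≤ infDist a B := hmin ha
    have h2 : infDist a B ≤ infDist (TopologicalSpace.denseSeq Plane k) B +
        dist a (TopologicalSpace.denseSeq Plane k) := infDist_le_infDist_add_dist
    rw [dist_comm, ← hd] at h2
    linarith

theorem RK.union (h : RK U) (h' : RK U') : RK (fun ω => U ω ∪ U' ω) := by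
  refine ⟨fun ω => (h.compact ω).union (h'.compact ω), fun ω => (h.ne ω).inl, fun z => ?_⟩
  have h1 : (fun ω => infDist z (U ω ∪ U' ω)) =
      fun ω => min (infDist z (U ω)) (infDist z (U' ω)) := by
    funext ω
    exact M1_union (h.ne ω) (h'.ne ω) z
  rw [h1]
  exact (h.meas z).min (h'.meas z)

/-- affine images -/
theorem RK.pos (h : RK U) (i : Idx) : RK (fun ω => pos i '' U ω) := by
  refine ⟨fun ω => (h.compact ω).image (M1_cont i), fun ω => (h.ne ω).image _, fun z => ?_⟩
  have hs := M1_side_pos i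
  have hz : Pool.Agent.Helper16.CD.pos i
      (z.1 / side i - (i.2.1 : ℝ), z.2 / side i - (i.2.2 : ℝ)) = z := by
    unfold Pool.Agent.Helper16.CD.pos
    ext
    · show side i * ((i.2.1 : ℝ) + (z.1 / side i - (i.2.1 : ℝ))) = z.1
      field_simp
      ring
    · show side i * ((i.2.2 : ℝ) + (z.2 / side i - (i.2.2 : ℝ))) = z.2
      field_simp
      ring
  have h1 : (fun ω => infDist z (Pool.Agent.Helper16.CD.pos i '' U ω)) =
      fun ω => side i * infDist (z.1 / side i - (i.2.1 : ℝ), z.2 / side i - (i.2.2 : ℝ)) (U ω) := by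
    funext ω
    rw [← M1_pos (h.compact ω) (h.ne ω) i, hz]
  rw [h1]
  exact (h.meas _).const_mul _

theorem meas_hit (h : RK U) (x : Plane) (R : ℝ) :
    MeasurableSet {ω | (U ω ∩ closedBall x R).Nonempty} := by
  have h1 : {ω | (U ω ∩ closedBall x R).Nonempty} = {ω | infDist x (U ω) ≤ R} := by
    ext ω
    exact M1_hit (h.compact ω) (h.ne ω) x R
  rw [h1]
  exact measurableSet_le (h.meas x) measurable_const

theorem meas_inter (h : RK U) (h' : RK U') : MeasurableSet {ω | (U ω ∩ U' ω).Nonempty} := by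
  have h1 : {ω | (U ω ∩ U' ω).Nonempty} = ⋂ n : ℕ, ⋃ k : ℕ,
      ({ω | infDist (TopologicalSpace.denseSeq Plane k) (U ω) < 1 / ((n : ℝ) + 1)} ∩
        {ω | infDist (TopologicalSpace.denseSeq Plane k) (U' ω) < 1 / ((n : ℝ) + 1)}) := by
    ext ω
    simp only [mem_iInter, mem_iUnion]
    exact M1_inter (h.compact ω) (h.ne ω) (h'.compact ω) (h'.ne ω)
  rw [h1]
  exact MeasurableSet.iInter fun n => MeasurableSet.iUnion fun k =>
    (measurableSet_lt (h.meas _) measurable_const).inter
      (measurableSet_lt (h'.meas _) measurable_const)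

theorem meas_disj_compact (h : RK U) {F : Set Plane} (hF : IsCompact F) (hne : F.Nonempty) :
    MeasurableSet {ω | Disjoint (U ω) F} := by
  have hK : RK (fun _ : Ω => F) := ⟨fun _ => hF, fun _ => hne, fun _ => measurable_const⟩
  have h1 : {ω | Disjoint (U ω) F} = {ω | (U ω ∩ F).Nonempty}ᶜ := by
    ext ω
    show Disjoint (U ω) F ↔ ¬ (U ω ∩ F).Nonempty
    rw [Set.not_nonempty_iff_eq_empty, Set.disjoint_iff_inter_eq_empty]
  rw [h1]
  exact (meas_inter h hK).compl

end Pool.Agent.Helper22.CD
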