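import Pool.Agent.Helper22.CD.M1

/-!
# CD-M1b: inclusions and diameters

* `meas_subset`: (`δ ≥ 0`, otherwise replace it by `0`: `cthickening δ F = closure F`)
  `A ⊆ cthickening δ F` iff `infDist q F ≤ infDist q A + δ` for all `q` of `denseSeq Plane`
  (all `q` by continuity; `q ∈ A` gives `infDist q F ≤ δ`).
* `meas_subset_open`: for `0 < δ` and `A` compact, `A ⊆ thickening δ F` iff there is `n` with
  `1 / (n + 1) ≤ δ` and `A ⊆ cthickening (δ - 1 / (n + 1)) F` (`infDist · F` attains its maximum
  on `A`).  For `δ ≤ 0` the set is empty.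
* `meas_diam`: (`0 < d`, otherwise everything) `d ≤ diam A` iff for all `n` there are `q, q'` of
  the dense sequence with `infDist q A < 1 / (n + 1)`, `infDist q' A < 1 / (n + 1)` and
  `d - 1 / (n + 1) < dist q q'` (⇒: the diameter of a compact set is attained or approximated,
  approximate the two points; ⇐: there are `a, a' ∈ A` with `dist a a' > d - 3 / (n + 1)`).
-/

set_option autoImplicit false

namespace Pool.Agent.Helper22.CD

open MeasureTheory ProbabilityTheory Metric Set
open scoped ENNReal NNReal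
open Pool.Agent.Helper3.CD Pool.Agent.Helper16.CD

variable {Ω : Type*} [MeasurableSpace Ω] {U : Ω → Set Plane}

private theorem mem_cth {F : Set Plane} (hF : F.Nonempty) (δ : ℝ) (x : Plane) :
    x ∈ cthickening δ F ↔ infDist x F ≤ max δ 0 := by
  rw [mem_cthickening_iff, infDist]
  have hfin : infEDist x F ≠ ⊤ := infEDist_ne_top hF
  constructor
  · intro h
    have h1 := ENNReal.toReal_mono ENNReal.ofReal_ne_top h
    rw [ENNReal.toReal_ofReal'] at h1
    exact h1
  · intro h
    rw [← ENNReal.ofReal_toReal hfin]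
    have h1 : ENNReal.ofReal (infEDist x F).toReal ≤ ENNReal.ofReal (max δ 0) :=
      ENNReal.ofReal_le_ofReal h
    refine h1.trans (le_of_eq ?_)
    rcases le_total δ 0 with h0 | h0
    · rw [max_eq_right h0, ENNReal.ofReal_of_nonpos h0, ENNReal.ofReal_zero]
    · rw [max_eq_left h0]

private theorem subset_iff {A F : Set Plane} (hA : IsCompact A) (hne : A.Nonempty)
    (hF : F.Nonempty) (δ : ℝ) :
    A ⊆ cthickening δ F ↔ ∀ k : ℕ, infDist (TopologicalSpace.denseSeq Plane k) F ≤
      infDist (TopologicalSpace.denseSeq Plane k) A + max δ 0 := by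
  constructor
  · intro h k
    obtain ⟨a, ha, hd⟩ := hA.exists_infDist_eq_dist hne (TopologicalSpace.denseSeq Plane k)
    have h1 := (mem_cth hF δ a).1 (h ha)
    have h2 := infDist_le_infDist_add_dist (s := F) (x := TopologicalSpace.denseSeq Plane k)
      (y := a)
    rw [hd]
    linarith
  · intro h a ha
    rw [mem_cth hF]
    have hcl : IsClosed {q : Plane | infDist q F ≤ infDist q A + max δ 0} :=
      isClosed_le (continuous_infDist_pt F) ((continuous_infDist_pt A).add continuous_const)
    have hd : Dense (range (TopologicalSpace.denseSeq Plane)) :=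
      TopologicalSpace.denseRange_denseSeq Plane
    have hsub : range (TopologicalSpace.denseSeq Plane) ⊆
        {q : Plane | infDist q F ≤ infDist q A + max δ 0} := by
      rintro _ ⟨k, rfl⟩
      exact h k
    have h1 : a ∈ closure (range (TopologicalSpace.denseSeq Plane)) := hd a
    have h2 : infDist a F ≤ infDist a A + max δ 0 := closure_minimal hsub hcl h1
    rw [infDist_zero_of_mem ha, zero_add] at h2
    exact h2

theorem meas_subset (h : RK U) {F : Set Plane} (hF : F.Nonempty) (δ : ℝ) :
    MeasurableSet {ω | U ω ⊆ cthickening δ F} := by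
  have h1 : {ω | U ω ⊆ cthickening δ F} = ⋂ k : ℕ, {ω |
      infDist (TopologicalSpace.denseSeq Plane k) F ≤
        infDist (TopologicalSpace.denseSeq Plane k) (U ω) + max δ 0} := by
    ext ω
    rw [mem_iInter]
    exact subset_iff (h.compact ω) (h.ne ω) hF δ
  rw [h1]
  exact MeasurableSet.iInter fun k =>
    measurableSet_le measurable_const ((h.meas _).add measurable_const)

theorem meas_subset_open (h : RK U) {F : Set Plane} (hF : F.Nonempty) (δ : ℝ) :
    MeasurableSet {ω | U ω ⊆ thickening δ F} := by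
  have h1 : {ω | U ω ⊆ thickening δ F} = ⋃ n : ℕ, {ω | 1 / ((n : ℝ) + 1) ≤ δ ∧
      U ω ⊆ cthickening (δ - 1 / ((n : ℝ) + 1)) F} := by
    ext ω
    rw [mem_iUnion]
    constructor
    · intro hω
      obtain ⟨a0, ha0, hmax⟩ := (h.compact ω).exists_isMaxOn (h.ne ω)
        (continuous_infDist_pt F).continuousOn
      have hlt : infDist a0 F < δ := by
        rw [infDist_lt_iff hF]
        exact mem_thickening_iff.1 (hω ha0)
      have h0 : 0 ≤ infDist a0 F := infDist_nonneg
      obtain ⟨n, hn⟩ := exists_nat_one_div_lt (sub_pos.2 hlt)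
      refine ⟨n, by linarith, fun a ha => ?_⟩
      rw [mem_cth hF]
      have h2 : infDist a F ≤ infDist a0 F := hmax ha
      exact le_max_of_le_left (by linarith)
    · rintro ⟨n, hn, hsub⟩ a ha
      have h2 := (mem_cth hF _ a).1 (hsub ha)
      rw [max_eq_left (by linarith)] at h2
      have h3 : (0 : ℝ) < 1 / ((n : ℝ) + 1) := by positivity
      rw [mem_thickening_iff]
      exact (infDist_lt_iff hF).1 (by linarith)
  rw [h1]
  refine MeasurableSet.iUnion fun n => ?_
  by_cases hn : 1 / ((n : ℝ) + 1) ≤ δ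
  · simp only [hn, true_and]
    exact meas_subset h hF _
  · simp only [hn, false_and, setOf_false, MeasurableSet.empty]

private theorem diam_iff {A : Set Plane} (hA : IsCompact A) (hne : A.Nonempty) (d : ℝ) :
    d ≤ diam A ↔ ∀ n : ℕ, ∃ k k' : ℕ,
      infDist (TopologicalSpace.denseSeq Plane k) A < 1 / ((n : ℝ) + 1) ∧
      infDist (TopologicalSpace.denseSeq Plane k') A < 1 / ((n : ℝ) + 1) ∧
      d - 1 / ((n : ℝ) + 1) <
        dist (TopologicalSpace.denseSeq Plane k) (TopologicalSpace.denseSeq Plane k') := by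
  constructor
  · intro h n
    have hn : (0 : ℝ) < 1 / ((n : ℝ) + 1) := by positivity
    set ε : ℝ := 1 / ((n : ℝ) + 1) with hε
    have h1 : ∃ a ∈ A, ∃ a' ∈ A, d - ε / 2 < dist a a' := by
      by_contra hc
      push Not at hc
      obtain ⟨a, ha⟩ := hne
      have h2 := hc a ha a ha
      rw [dist_self] at h2
      have h3 := diam_le_of_forall_dist_le h2 hc
      linarith
    obtain ⟨a, ha, a', ha', haa⟩ := h1
    have hd : DenseRange (TopologicalSpace.denseSeq Plane) :=
      TopologicalSpace.denseRange_denseSeq Plane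
    obtain ⟨k, hk⟩ := hd.exists_dist_lt a (show 0 < ε / 4 by positivity)
    obtain ⟨k', hk'⟩ := hd.exists_dist_lt a' (show 0 < ε / 4 by positivity)
    refine ⟨k, k', ?_, ?_, ?_⟩
    · rw [infDist_lt_iff ⟨a, ha⟩]
      exact ⟨a, ha, by rw [dist_comm]; linarith⟩
    · rw [infDist_lt_iff ⟨a, ha⟩]
      exact ⟨a', ha', by rw [dist_comm]; linarith⟩
    · have h2 := dist_triangle4 a (TopologicalSpace.denseSeq Plane k)
        (TopologicalSpace.denseSeq Plane k') a'
      rw [dist_comm (TopologicalSpace.denseSeq Plane k') a'] at h2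
      linarith
  · intro h
    by_contra hc
    have hc' : 0 < (d - diam A) / 3 := by
      have := not_le.1 hc
      linarith
    obtain ⟨n, hn⟩ := exists_nat_one_div_lt hc'
    obtain ⟨k, k', h1, h2, h3⟩ := h n
    obtain ⟨a, ha, hka⟩ := (infDist_lt_iff hne).1 h1
    obtain ⟨a', ha', hka'⟩ := (infDist_lt_iff hne).1 h2
    have h4 : dist a a' ≤ diam A := dist_le_diam_of_mem hA.isBounded ha ha'
    have h5 := dist_triangle4 (TopologicalSpace.denseSeq Plane k) a a'
      (TopologicalSpace.denseSeq Plane k')
    rw [dist_comm a' (TopologicalSpace.denseSeq Plane k')] at h5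
    linarith

theorem meas_diam (h : RK U) (d : ℝ) : MeasurableSet {ω | d ≤ diam (U ω)} := by
  have h1 : {ω | d ≤ diam (U ω)} = ⋂ n : ℕ, ⋃ k : ℕ, ⋃ k' : ℕ, ({ω |
      infDist (TopologicalSpace.denseSeq Plane k) (U ω) < 1 / ((n : ℝ) + 1)} ∩ {ω |
      infDist (TopologicalSpace.denseSeq Plane k') (U ω) < 1 / ((n : ℝ) + 1)} ∩ {_ω |
      d - 1 / ((n : ℝ) + 1) <
        dist (TopologicalSpace.denseSeq Plane k) (TopologicalSpace.denseSeq Plane k')}) := by
    ext ω
    simp only [mem_setOf_eq, mem_iInter, mem_iUnion, mem_inter_iff]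
    rw [diam_iff (h.compact ω) (h.ne ω) d]
    refine forall_congr' fun n => exists_congr fun k => exists_congr fun k' => ?_
    rw [and_assoc]
  rw [h1]
  refine MeasurableSet.iInter fun n => MeasurableSet.iUnion fun k => MeasurableSet.iUnion
    fun k' => ?_
  refine MeasurableSet.inter (MeasurableSet.inter ?_ ?_) ?_
  · exact measurableSet_lt (h.meas _) measurable_const
  · exact measurableSet_lt (h.meas _) measurable_const
  · exact MeasurableSet.const _

end Pool.Agent.Helper22.CD
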