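import Pool.Agent.Helper22.CD.M1

/-!
# CD-M2: surrounded points and chains of balls

`A` closed and nonempty, `z` a point.  If `z ∉ fillIn A` then the component of `z` in the open set
`Aᶜ` is unbounded (in particular `z ∉ A`).
(⇐: the union of the balls `ball q_i (1 / (n + 1))` is connected, contains `z` and misses `A`
because `infDist q_i A > 1 / (n + 1)`; so the last point `q_m` is in the component of `z`; its norm is
at least `M`.)
(⇒: the component is open and connected in `Plane` (`IsOpen.connectedComponentIn`), so path
connected (`IsOpen.isConnected_iff_isPathConnected`); take a path from `z` to a point of norm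
`> M + 1`; its image is compact and has a positive distance `> 2 / (n + 1)` from `A`;
subdivide (uniform continuity) into steps of length `< 1 / (3 (n + 1))` and approximate the division
points by members of the dense sequence up to `1 / (3 (n + 1))`.)
-/

set_option autoImplicit false

namespace Pool.Agent.Helper22.CD

open MeasureTheory ProbabilityTheory Metric Set
open scoped ENNReal NNReal
open Pool.Agent.Helper3.CD Pool.Agent.Helper16.CD

/-- chains of balls of radius `1 / (n + 1)` from `z` to norm at least `M`, missing `A` -/
def BChain (A : Set Plane) (z : Plane) (M n : ℕ) (l : List ℕ) : Prop :=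
  (∀ k ∈ l, 1 / ((n : ℝ) + 1) < infDist (TopologicalSpace.denseSeq Plane k) A) ∧
  List.IsChain (fun k k' => dist (TopologicalSpace.denseSeq Plane k)
    (TopologicalSpace.denseSeq Plane k') < 1 / ((n : ℝ) + 1)) l ∧
  (∃ k, l.head? = some k ∧ dist z (TopologicalSpace.denseSeq Plane k) < 1 / ((n : ℝ) + 1)) ∧
  (∃ k, l.getLast? = some k ∧ (M : ℝ) ≤ ‖TopologicalSpace.denseSeq Plane k‖)

private theorem ball_sub {A : Set Plane} {q : Plane} {r : ℝ} (h : r < infDist q A) :
    ball q r ⊆ Aᶜ := by
  intro x hx hxA
  have h1 := infDist_le_dist_of_mem (x := q) hxA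
  rw [mem_ball, dist_comm] at hx
  linarith

private theorem comp_step {A : Set Plane} {q z w : Plane} {r : ℝ} (hr : 0 < r)
    (h : r < infDist q A) (hz : dist z q < r) (hw : z ∈ connectedComponentIn Aᶜ w) :
    q ∈ connectedComponentIn Aᶜ w := by
  have h1 : z ∈ ball q r := hz
  have h2 : q ∈ ball q r := mem_ball_self hr
  have h3 : IsPreconnected (ball q r) := (convex_ball q r).isPreconnected
  have h4 : ball q r ⊆ connectedComponentIn Aᶜ z :=
    h3.subset_connectedComponentIn h1 (ball_sub h)
  rw [connectedComponentIn_eq hw]
  exact h4 h2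

private theorem comp_list {A : Set Plane} {w : Plane} {r : ℝ} (hr : 0 < r) :
    ∀ (l : List ℕ), (∀ k ∈ l, r < infDist (TopologicalSpace.denseSeq Plane k) A) →
      List.IsChain (fun k k' => dist (TopologicalSpace.denseSeq Plane k)
        (TopologicalSpace.denseSeq Plane k') < r) l →
      (∀ k, l.head? = some k → TopologicalSpace.denseSeq Plane k ∈ connectedComponentIn Aᶜ w) →
      ∀ k ∈ l, TopologicalSpace.denseSeq Plane k ∈ connectedComponentIn Aᶜ w
  | [], _, _, _ => by simp
  | [a], _, _, h3 => by
      intro k hk
      rw [List.mem_singleton] at hk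
      subst hk
      exact h3 k rfl
  | a :: b :: l, h1, h2, h3 => by
      rw [List.isChain_cons_cons] at h2
      have ha : TopologicalSpace.denseSeq Plane a ∈ connectedComponentIn Aᶜ w := h3 a rfl
      have hb : TopologicalSpace.denseSeq Plane b ∈ connectedComponentIn Aᶜ w :=
        comp_step hr (h1 b (by simp)) h2.1 ha
      intro k hk
      rcases List.mem_cons.1 hk with rfl | hk
      · exact ha
      · refine comp_list hr (b :: l) (fun k hk => h1 k (List.mem_cons_of_mem _ hk)) h2.2 ?_ k hk
        intro k' hk'
        have : b = k' := by simpa using hk'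
        rw [← this]
        exact hb

theorem not_mem_fillIn_iff {A : Set Plane} (hA : IsClosed A) (hne : A.Nonempty) (z : Plane) :
    z ∉ fillIn A ↔ ∀ M : ℕ, ∃ (n : ℕ) (l : List ℕ), BChain A z M n l := by
  constructor
  · intro hz M
    have hunb : ¬ Bornology.IsBounded (connectedComponentIn Aᶜ z) := hz
    set U := connectedComponentIn Aᶜ z with hU
    have hUA : U ⊆ Aᶜ := connectedComponentIn_subset _ _
    have hne' : U.Nonempty := by
      by_contra hcon
      rw [not_nonempty_iff_eq_empty] at hcon
      rw [hcon] at hunb
      exact hunb Bornology.isBounded_empty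
    have hzA : z ∈ Aᶜ := connectedComponentIn_nonempty_iff.1 hne'
    have hzU : z ∈ U := mem_connectedComponentIn hzA
    have hopen : IsOpen U := hA.isOpen_compl.connectedComponentIn
    have hconn : IsConnected U := ⟨hne', isPreconnected_connectedComponentIn⟩
    have hpath := hopen.isConnected_iff_isPathConnected.1 hconn
    obtain ⟨y, hyU, hy⟩ : ∃ y ∈ U, (M : ℝ) + 1 < ‖y‖ := by
      by_contra hcon
      push Not at hcon
      exact hunb (isBounded_iff_forall_norm_le.2 ⟨M + 1, hcon⟩)
    obtain ⟨γ, hγ⟩ := hpath.joinedIn z hzU y hyU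
    -- a positive distance
    obtain ⟨t₀, ht₀⟩ := (isCompact_univ (X := unitInterval)).exists_isMinOn
      ⟨0, mem_univ _⟩ ((continuous_infDist_pt A).comp γ.continuous).continuousOn
    have hpos : 0 < infDist (γ t₀) A :=
      (hA.notMem_iff_infDist_pos hne).1 (hUA (hγ t₀))
    have hmin : ∀ t, infDist (γ t₀) A ≤ infDist (γ t) A := fun t => ht₀.2 (mem_univ t)
    obtain ⟨n, hn⟩ := exists_nat_one_div_lt (half_pos hpos)
    have hn' : 2 * (1 / ((n : ℝ) + 1)) < infDist (γ t₀) A := by linarith
    have hr : 0 < 1 / ((n : ℝ) + 1) := by positivity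
    set r := 1 / ((n : ℝ) + 1) with hrdef
    -- uniform continuity
    have huc : UniformContinuous γ := CompactSpace.uniformContinuous_of_continuous γ.continuous
    obtain ⟨δ, hδ, hδ'⟩ := Metric.uniformContinuous_iff.1 huc (r / 3) (by positivity)
    obtain ⟨N, hN⟩ := exists_nat_one_div_lt hδ
    have hNpos : (0 : ℝ) < (N : ℝ) + 1 := by positivity
    have hmem : ∀ i : ℕ, i ≤ N + 1 → (i : ℝ) / (N + 1) ∈ unitInterval := by
      intro i hi
      refine ⟨by positivity, ?_⟩
      rw [div_le_one hNpos]
      exact_mod_cast hi
    set pt : ℕ → Plane := fun i => γ (projIcc 0 1 zero_le_one ((i : ℝ) / (N + 1))) with hpt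
    have hdense : ∀ i : ℕ, ∃ k, dist (pt i) (TopologicalSpace.denseSeq Plane k) < r / 3 := by
      intro i
      have h := (TopologicalSpace.denseRange_denseSeq Plane).exists_dist_lt (pt i)
        (by positivity : 0 < r / 3)
      exact h
    choose k hk using hdense
    have hstep : ∀ i < N + 1, dist (pt i) (pt (i + 1)) < r / 3 := by
      intro i hi
      apply hδ'
      rw [Subtype.dist_eq, projIcc_of_mem zero_le_one (hmem i (by omega)),
        projIcc_of_mem zero_le_one (hmem (i + 1) (by omega)), Real.dist_eq]
      have : (i : ℝ) / (N + 1) - ((i + 1 : ℕ) : ℝ) / (N + 1) = -(1 / ((N : ℝ) + 1)) := by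
        push_cast
        field_simp
        ring
      simp only
      rw [this, abs_neg, abs_of_pos (by positivity)]
      exact hN
    have hp0 : pt 0 = z := by
      simp [hpt, projIcc_left]
    have hpN : pt (N + 1) = y := by
      have h1 : (((N + 1 : ℕ) : ℝ)) / (N + 1) = 1 := by
        push_cast
        exact div_self hNpos.ne'
      simp only [hpt]
      rw [h1]
      simp [projIcc_right]
    refine ⟨n, (List.range (N + 2)).map k, ?_, ?_, ?_, ?_⟩
    · intro j hj
      rw [List.mem_map] at hj
      obtain ⟨i, -, rfl⟩ := hj
      have h1 := hmin (projIcc 0 1 zero_le_one ((i : ℝ) / (N + 1)))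
      have h2 : infDist (pt i) A ≤ infDist (TopologicalSpace.denseSeq Plane (k i)) A +
        dist (pt i) (TopologicalSpace.denseSeq Plane (k i)) := infDist_le_infDist_add_dist
      have h3 := hk i
      have h4 : infDist (γ t₀) A ≤ infDist (pt i) A := h1
      rw [← hrdef]
      linarith
    · rw [List.isChain_map, List.isChain_range_succ]
      intro i hi
      have h1 := hk i
      have h2 := hk (i + 1)
      have h3 := hstep i hi
      have h4 := dist_triangle4 (TopologicalSpace.denseSeq Plane (k i)) (pt i) (pt (i + 1))
        (TopologicalSpace.denseSeq Plane (k (i + 1)))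
      rw [dist_comm (TopologicalSpace.denseSeq Plane (k i)) (pt i)] at h4
      rw [← hrdef]
      show dist (TopologicalSpace.denseSeq Plane (k i))
        (TopologicalSpace.denseSeq Plane (k (i + 1))) < r
      linarith
    · refine ⟨k 0, ?_, ?_⟩
      · rw [List.head?_map, List.head?_range]
        simp
      · have h1 := hk 0
        rw [hp0] at h1
        rw [← hrdef]
        linarith
    · refine ⟨k (N + 1), ?_, ?_⟩
      · rw [List.getLast?_map, List.getLast?_range]
        simp
      · have h1 := hk (N + 1)
        rw [hpN] at h1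
        have h2 : ‖y‖ ≤ ‖TopologicalSpace.denseSeq Plane (k (N + 1))‖ +
            dist y (TopologicalSpace.denseSeq Plane (k (N + 1))) := by
          rw [dist_eq_norm]
          calc ‖y‖ = ‖TopologicalSpace.denseSeq Plane (k (N + 1)) +
              (y - TopologicalSpace.denseSeq Plane (k (N + 1)))‖ := by congr 1; abel
            _ ≤ _ := norm_add_le _ _
        have h3 : r ≤ 1 := by
          rw [hrdef, div_le_one (by positivity)]
          have : (0 : ℝ) ≤ n := Nat.cast_nonneg n
          linarith
        linarith
  · intro h hb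
    obtain ⟨R, hR⟩ := isBounded_iff_forall_norm_le.1
      (show Bornology.IsBounded (connectedComponentIn Aᶜ z) from hb)
    obtain ⟨M, hM⟩ := exists_nat_gt R
    obtain ⟨n, l, h1, h2, ⟨k, hk1, hk2⟩, ⟨k', hk3, hk4⟩⟩ := h M
    have hr : 0 < 1 / ((n : ℝ) + 1) := by positivity
    have hkl : k ∈ l := List.mem_of_head? hk1
    have hzc : z ∈ connectedComponentIn Aᶜ z :=
      mem_connectedComponentIn (ball_sub (h1 k hkl) (show z ∈ ball _ _ from hk2))
    have hkc : TopologicalSpace.denseSeq Plane k ∈ connectedComponentIn Aᶜ z :=
      comp_step hr (h1 k hkl) hk2 hzc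
    have hall := comp_list (w := z) hr l h1 h2 (by
      intro j hj
      rw [hk1] at hj
      have : k = j := by simpa using hj
      rw [← this]
      exact hkc)
    have h5 := hR _ (hall k' (List.mem_of_getLast? hk3))
    linarith

end Pool.Agent.Helper22.CD
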