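import Pool.Agent.Helper22.CD.M2

/-!
# CD-M2b: measurability of surrounded points

`meas_fill`: by `not_mem_fillIn_iff` the complement is a countable intersection over `M` of
countable unions over `n : ℕ` and `l : List ℕ` of the sets `{ω | BChain (U ω) z M n l}`, which are
measurable (only the first condition depends on `ω`: finite intersection over `k ∈ l`, induction on
`l` or `MeasurableSet.biInter` with `l.toFinset`).
`RK.cthickening`: `IsCompact.cthickening`; `infDist z (cthickening δ A) = max 0 (infDist z A - δ)`,
from `infEDist_cthickening`.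
-/

set_option autoImplicit false

namespace Pool.Agent.Helper22.CD

open MeasureTheory ProbabilityTheory Metric Set
open scoped ENNReal NNReal
open Pool.Agent.Helper3.CD Pool.Agent.Helper16.CD

variable {Ω : Type*} [MeasurableSpace Ω] {U : Ω → Set Plane}

private theorem M2b_chain (h : RK U) (z : Plane) (M n : ℕ) (l : List ℕ) :
    MeasurableSet {ω | BChain (U ω) z M n l} := by
  have h1 : MeasurableSet {ω | ∀ k ∈ l, 1 / ((n : ℝ) + 1) <
      infDist (TopologicalSpace.denseSeq Plane k) (U ω)} := by
    have h2 : {ω | ∀ k ∈ l, 1 / ((n : ℝ) + 1) <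
        infDist (TopologicalSpace.denseSeq Plane k) (U ω)} =
        ⋂ k : ℕ, ⋂ _ : k ∈ l, {ω | 1 / ((n : ℝ) + 1) <
          infDist (TopologicalSpace.denseSeq Plane k) (U ω)} := by
      ext ω
      simp only [Set.mem_ofPred_eq, Set.mem_iInter]
    rw [h2]
    exact MeasurableSet.iInter fun k => MeasurableSet.iInter fun _ =>
      measurableSet_lt measurable_const (h.meas _)
  exact h1.inter (MeasurableSet.const _)

theorem meas_fill (h : RK U) (z : Plane) : MeasurableSet {ω | z ∈ fillIn (U ω)} := by
  have h1 : {ω | z ∈ fillIn (U ω)} =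
      (⋂ M : ℕ, ⋃ n : ℕ, ⋃ l : List ℕ, {ω | BChain (U ω) z M n l})ᶜ := by
    ext ω
    rw [Set.mem_compl_iff, Set.mem_ofPred_eq, ← not_iff_not, not_not]
    simp only [Set.mem_iInter, Set.mem_iUnion, Set.mem_ofPred_eq]
    exact not_mem_fillIn_iff (h.compact ω).isClosed (h.ne ω) z
  rw [h1]
  exact (MeasurableSet.iInter fun M => MeasurableSet.iUnion fun n =>
    MeasurableSet.iUnion fun l => M2b_chain h z M n l).compl

theorem RK.cthickening (h : RK U) {δ : ℝ} (hδ : 0 ≤ δ) :
    RK (fun ω => Metric.cthickening δ (U ω)) := by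
  refine ⟨fun ω => (h.compact ω).cthickening, fun ω => ?_, fun z => ?_⟩
  · exact (h.ne ω).mono (Metric.self_subset_cthickening _)
  · have h1 : (fun ω => infDist z (Metric.cthickening δ (U ω))) =
        fun ω => max (infDist z (U ω) - δ) 0 := by
      funext ω
      have h2 : ENNReal.ofReal (infDist z (U ω)) = infEDist z (U ω) := by
        unfold infDist
        exact ENNReal.ofReal_toReal (infEDist_ne_top (h.ne ω))
      have h3 : infEDist z (Metric.cthickening δ (U ω)) =
          ENNReal.ofReal (infDist z (U ω) - δ) := by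
        rw [infEDist_cthickening, ENNReal.ofReal_sub _ hδ, h2]
      unfold infDist at h3 ⊢
      rw [h3, ENNReal.toReal_ofReal']
    rw [h1]
    exact ((h.meas z).sub_const δ).max measurable_const

end Pool.Agent.Helper22.CD
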