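import Pool.Agent.Helper22.CD.M1b
import Pool.Agent.Helper22.CD.M2b

/-!
# CD-M3: measurability of the relations

Lists `List.ofFn fun t => (c t, e t)` with fixed `c : Fin n → Idx` and variable `e : Fin n → E`.
`un sh` of such a list (`n ≥ 1`) is a random compact set (`RK.union`, `RK.pos`, induction on `n`);
`Walk` is a finite intersection of events (`List.isChain_ofFn`, `meas_inter`); the other
conditions are `meas_hit`, `meas_diam`, `meas_subset` (`closedBall x R = cthickening R {x}`,
`R ≥ 0`), `meas_subset_open` (`interior (closedBall x R) = ball x R = thickening R {x}`),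
`meas_disj_compact`, `meas_fill`.  For `OneR`, `K1r`, `Singr` only `n = 1` counts.
-/

set_option autoImplicit false

namespace Pool.Agent.Helper22.CD

open MeasureTheory ProbabilityTheory Metric Set
open scoped ENNReal NNReal
open Pool.Agent.Helper3.CD Pool.Agent.Helper16.CD

variable {E : Type} [MeasurableSpace E] {ν : Measure E} {sh : E → Set Plane}

private theorem rk_sh (h : IsShape ν sh) : RK sh :=
  ⟨h.compact, fun e => (h.conn e).nonempty, h.meas⟩

theorem rk_lp (h : IsShape ν sh) (i : Idx) : RK (fun e => lp sh (i, e)) :=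
  (rk_sh h).pos i

private theorem rk_biUnion (h : IsShape ν sh) {n : ℕ} (c : Fin n → Idx) (s : Finset (Fin n))
    (hs : s.Nonempty) : RK (fun e : Fin n → E => ⋃ t ∈ s, lp sh (c t, e t)) := by
  classical
  have h1 : ∀ t, RK (fun e : Fin n → E => lp sh (c t, e t)) := fun t =>
    (rk_lp h (c t)).comp (measurable_pi_apply t)
  induction hs using Finset.Nonempty.cons_induction with
  | singleton a => simpa using h1 a
  | cons a s ha hs ih =>
    have := (h1 a).union ih
    simpa [Finset.cons_eq_insert, Finset.mem_insert, iUnion_or, iUnion_union_distrib] using this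

omit [MeasurableSpace E] in
private theorem un_ofFn {n : ℕ} (c : Fin n → Idx) (e : Fin n → E) :
    un sh (List.ofFn fun t => (c t, e t)) = ⋃ t ∈ (Finset.univ : Finset (Fin n)), lp sh (c t, e t) := by
  ext z
  simp only [un, mem_iUnion, List.mem_ofFn, Finset.mem_univ, exists_prop, true_and]
  constructor
  · rintro ⟨p, ⟨t, rfl⟩, hz⟩
    exact ⟨t, hz⟩
  · rintro ⟨t, hz⟩
    exact ⟨_, ⟨t, rfl⟩, hz⟩

theorem rk_un (h : IsShape ν sh) {n : ℕ} (hn : 0 < n) (c : Fin n → Idx) :
    RK (fun e : Fin n → E => un sh (List.ofFn fun t => (c t, e t))) := by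
  simp only [un_ofFn]
  exact rk_biUnion h c _ ⟨⟨0, hn⟩, Finset.mem_univ _⟩

theorem meas_walk (h : IsShape ν sh) {n : ℕ} (c : Fin n → Idx) :
    MeasurableSet {e : Fin n → E | Walk sh (List.ofFn fun t => (c t, e t))} := by
  have h1 : ∀ t, RK (fun e : Fin n → E => lp sh (c t, e t)) := fun t =>
    (rk_lp h (c t)).comp (measurable_pi_apply t)
  have h2 : {e : Fin n → E | Walk sh (List.ofFn fun t => (c t, e t))} =
      ⋂ (i : ℕ) (hi : i + 1 < n), {e : Fin n → E |
        (lp sh (c ⟨i, by omega⟩, e ⟨i, by omega⟩) ∩ lp sh (c ⟨i + 1, hi⟩, e ⟨i + 1, hi⟩)).Nonempty} := by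
    ext e
    simp only [Walk, mem_ofPred_eq, mem_iInter, List.isChain_ofFn]
  rw [h2]
  exact MeasurableSet.iInter fun i => MeasurableSet.iInter fun hi => meas_inter (h1 _) (h1 _)

private theorem nil_case {n : ℕ} {R : List (Idx × E) → Prop} (hR : ∀ l, R l → l ≠ []) (c : Fin n → Idx)
    (hn : n = 0) : MeasurableSet {e : Fin n → E | R (List.ofFn fun t => (c t, e t))} := by
  subst hn
  have : {e : Fin 0 → E | R (List.ofFn fun t => (c t, e t))} = ∅ := by
    ext e
    simp only [mem_ofPred_eq, mem_empty_iff_false, iff_false]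
    intro hR'
    exact hR _ hR' (by simp)
  rw [this]
  exact MeasurableSet.empty

theorem measR_ChR (h : IsShape ν sh) (k : ℕ) (x : Plane) (R d : ℝ) : MeasR (ChR sh k x R d) := by
  intro n c
  rcases Nat.eq_zero_or_pos n with hn | hn
  · exact nil_case (fun l hl => hl.1) c hn
  · have hU := rk_un h hn c
    have hne : ∀ e : Fin n → E, (List.ofFn fun t => (c t, e t)) ≠ [] := by
      intro e he
      have := congrArg List.length he
      simp at this
      omega
    have h2 : {e : Fin n → E | ChR sh k x R d (List.ofFn fun t => (c t, e t))} =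
        ({e : Fin n → E | Walk sh (List.ofFn fun t => (c t, e t))} ∩
          {_e : Fin n → E | ∀ t, k ≤ (c t).1}) ∩
        ({e : Fin n → E | (un sh (List.ofFn fun t => (c t, e t)) ∩ closedBall x R).Nonempty} ∩
          {e : Fin n → E | d ≤ diam (un sh (List.ofFn fun t => (c t, e t)))}) := by
      ext e
      simp only [ChR, mem_ofPred_eq, mem_inter_iff, List.mem_ofFn, forall_exists_index,
        forall_apply_eq_imp_iff]
      constructor
      · rintro ⟨-, a1, a2, a3, a4⟩
        exact ⟨⟨a1, a2⟩, a3, a4⟩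
      · rintro ⟨⟨a1, a2⟩, a3, a4⟩
        exact ⟨hne e, a1, a2, a3, a4⟩
    rw [h2]
    exact ((meas_walk h c).inter (MeasurableSet.const _)).inter
      ((meas_hit hU x R).inter (meas_diam hU d))

private theorem single_case {n : ℕ} {R : List (Idx × E) → Prop} {Q : Idx × E → Prop}
    (hR : ∀ l, R l ↔ ∃ p, l = [p] ∧ Q p) (hQ : ∀ i, MeasurableSet {e | Q (i, e)})
    (c : Fin n → Idx) : MeasurableSet {e : Fin n → E | R (List.ofFn fun t => (c t, e t))} := by
  by_cases hn : n = 1
  · subst hn
    have : {e : Fin 1 → E | R (List.ofFn fun t => (c t, e t))} =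
        (fun e : Fin 1 → E => e 0) ⁻¹' {e | Q (c 0, e)} := by
      ext e
      simp only [mem_ofPred_eq, mem_preimage, hR, List.ofFn_succ, List.ofFn_zero]
      constructor
      · rintro ⟨p, hp, hq⟩
        obtain rfl : (c 0, e 0) = p := by simpa using hp
        exact hq
      · intro hq
        exact ⟨_, rfl, hq⟩
    rw [this]
    exact (measurable_pi_apply 0) (hQ _)
  · have : {e : Fin n → E | R (List.ofFn fun t => (c t, e t))} = ∅ := by
      ext e
      simp only [mem_ofPred_eq, mem_empty_iff_false, iff_false, hR]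
      rintro ⟨p, hp, -⟩
      have := congrArg List.length hp
      simp at this
      exact hn this
    rw [this]
    exact MeasurableSet.empty

theorem measR_OneR (h : IsShape ν sh) (a b : ℕ) (x : Plane) (R : ℝ) :
    MeasR (OneR sh a b x R) := by
  intro n c
  refine single_case (Q := fun p => a ≤ p.1.1 ∧ p.1.1 < b ∧ (lp sh p ∩ closedBall x R).Nonempty)
    (fun l => Iff.rfl) (fun i => ?_) c
  have h2 : {e : E | a ≤ i.1 ∧ i.1 < b ∧ (lp sh (i, e) ∩ closedBall x R).Nonempty} =
      {_e : E | a ≤ i.1} ∩ ({_e : E | i.1 < b} ∩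
        {e : E | (lp sh (i, e) ∩ closedBall x R).Nonempty}) := by
    ext e; simp
  exact h2 ▸ ((MeasurableSet.const _).inter ((MeasurableSet.const _).inter
    (meas_hit (rk_lp h i) x R)))

private theorem side_pos (i : Idx) : 0 < side i := by
  unfold side; positivity

private theorem meas_sub_big {Ω : Type*} [MeasurableSpace Ω] {U : Ω → Set Plane} (hU : RK U)
    {t : ℝ} (ht : 0 ≤ t) (V : Idx) : MeasurableSet {ω | U ω ⊆ big t V} := by
  have h1 : big t V = cthickening (t * side V / 2) {ctr V} := by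
    rw [big, cthickening_singleton]
    have := side_pos V
    positivity
  rw [h1]
  exact meas_subset hU (singleton_nonempty _) _

private theorem meas_disj_big {Ω : Type*} [MeasurableSpace Ω] {U : Ω → Set Plane} (hU : RK U)
    {t : ℝ} (ht : 0 ≤ t) (V : Idx) : MeasurableSet {ω | Disjoint (U ω) (big t V)} := by
  refine meas_disj_compact hU (isCompact_closedBall _ _) ?_
  refine nonempty_closedBall.2 ?_
  have := side_pos V
  positivity

theorem measR_K3r (h : IsShape ν sh) {τ : ℝ} (hτ : 0 < τ) (k : ℕ) (V V' : Idx) :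
    MeasR (K3r sh τ k V V') := by
  intro n c
  rcases Nat.eq_zero_or_pos n with hn | hn
  · exact nil_case (fun l hl => hl.1) c hn
  · have hU := rk_un h hn c
    have hne : ∀ e : Fin n → E, (List.ofFn fun t => (c t, e t)) ≠ [] := by
      intro e he
      have := congrArg List.length he
      simp at this
      omega
    have h2 : {e : Fin n → E | K3r sh τ k V V' (List.ofFn fun t => (c t, e t))} =
        ({e : Fin n → E | Walk sh (List.ofFn fun t => (c t, e t))} ∩
          {_e : Fin n → E | ∀ t, k ≤ (c t).1}) ∩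
        (({e : Fin n → E | un sh (List.ofFn fun t => (c t, e t)) ⊆ big 9 V} ∩
          {e : Fin n → E | Disjoint (un sh (List.ofFn fun t => (c t, e t))) (big 7 V')}) ∩
          {e : Fin n → E | ctr V' ∈ fillIn (cthickening (τ * side V')
            (un sh (List.ofFn fun t => (c t, e t))))}) := by
      ext e
      simp only [K3r, mem_ofPred_eq, mem_inter_iff, List.mem_ofFn, forall_exists_index,
        forall_apply_eq_imp_iff]
      constructor
      · rintro ⟨-, a1, a2, a3, a4, a5⟩
        exact ⟨⟨a1, a2⟩, ⟨a3, a4⟩, a5⟩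
      · rintro ⟨⟨a1, a2⟩, ⟨a3, a4⟩, a5⟩
        exact ⟨hne e, a1, a2, a3, a4, a5⟩
    rw [h2]
    have hτ' : 0 ≤ τ * side V' := (mul_pos hτ (side_pos _)).le
    exact ((meas_walk h c).inter (MeasurableSet.const _)).inter
      (((meas_sub_big hU (by norm_num) V).inter (meas_disj_big hU (by norm_num) V')).inter
        (meas_fill (hU.cthickening hτ') _))

theorem measR_Singr (h : IsShape ν sh) (V V' : Idx) : MeasR (Singr sh V V') := by
  intro n c
  refine single_case (Q := fun p => V.1 ≤ p.1.1 ∧ p.1.1 < V'.1 ∧ lp sh p ⊆ interior (big 3 V) ∧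
    Disjoint (lp sh p) (big 7 V') ∧ ctr V' ∈ fillIn (lp sh p))
    (fun l => Iff.rfl) (fun i => ?_) c
  have hU := rk_lp h i
  have h3 : interior (big 3 V) = thickening (3 * side V / 2) {ctr V} := by
    rw [big, interior_closedBall _ (by have := side_pos V; positivity), thickening_singleton]
  have h2 : {e : E | V.1 ≤ i.1 ∧ i.1 < V'.1 ∧ lp sh (i, e) ⊆ interior (big 3 V) ∧
      Disjoint (lp sh (i, e)) (big 7 V') ∧ ctr V' ∈ fillIn (lp sh (i, e))} =
      {_e : E | V.1 ≤ i.1} ∩ ({_e : E | i.1 < V'.1} ∩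
        ({e : E | lp sh (i, e) ⊆ thickening (3 * side V / 2) {ctr V}} ∩
          ({e : E | Disjoint (lp sh (i, e)) (big 7 V')} ∩
            {e : E | ctr V' ∈ fillIn (lp sh (i, e))}))) := by
    rw [← h3]
    ext e; simp
  exact h2 ▸ ((MeasurableSet.const _).inter ((MeasurableSet.const _).inter
    ((meas_subset_open hU (singleton_nonempty _) _).inter
      ((meas_disj_big hU (by norm_num) V').inter (meas_fill hU _)))))

private theorem h0_mem : h0 ∈ Hset := by
  refine ⟨(1, 1), ?_, ?_, ?_, ?_, ?_⟩
  · refine ⟨by norm_num, by norm_num, by norm_num, by norm_num, by norm_num, ?_⟩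
    intro h
    simp at h
  all_goals norm_num [h0]

private theorem Hset_compact : IsCompact Hset := by
  have h1 : Hset = ⋃ d ∈ {d : ℤ × ℤ | isR d},
      (Icc ((d.1 : ℝ) / 8) ((d.1 + 1) / 8)) ×ˢ (Icc ((d.2 : ℝ) / 8) ((d.2 + 1) / 8)) := by
    ext z
    simp only [Hset, mem_ofPred_eq, mem_iUnion, exists_prop, mem_prod, mem_Icc, and_assoc]
  rw [h1]
  refine Set.Finite.isCompact_biUnion ?_ fun d _ => isCompact_Icc.prod isCompact_Icc
  refine (Set.finite_Icc ((1, 1) : ℤ × ℤ) (6, 6)).subset ?_
  rintro d ⟨a1, a2, a3, a4, -⟩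
  exact ⟨⟨a1, a3⟩, ⟨a2, a4⟩⟩

theorem measurableSet_Lset (h : IsShape ν sh) : MeasurableSet (Lset sh) := by
  have hU := rk_sh h
  have hne : Hset.Nonempty := ⟨h0, h0_mem⟩
  have h2 : Lset sh = {e | sh e ⊆ thickening (1 / 32) Hset} ∩
      ({e | Disjoint (sh e) Hset} ∩ {e | h0 ∈ fillIn (sh e)}) := by
    ext e; simp [Lset]
  rw [h2]
  exact (meas_subset_open hU hne _).inter ((meas_disj_compact hU Hset_compact hne).inter
    (meas_fill hU _))

end Pool.Agent.Helper22.CD
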